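import Pool.Agent.H76.TL.P2
import Pool.Agent.H77.TL.Stm

set_option autoImplicit false

namespace H76TL

open Pool.MP324

lemma Enc.congr {e1 e2 v w : ℝ} {A : AF} (h : v = w) (ha : Enc e1 e2 v A) : Enc e1 e2 w A :=
  h ▸ ha

/-- the conclusion (N1) at a point -/
def N1at (m y : ℝ) : Prop := ∀ z : ℝ, 0 ≤ z →
  0 ≤ fyy m y * z ^ 2 + 2 * (fmy m y - eps m / 2 * fy m y) * z
    + (fmm m y - (Real.log 2 + eps m) * fm m y)

lemma fin3_sound {e1 e2 f t q w : ℝ} {F T Q W : AF} (he : Env e1 e2) (hF : Enc e1 e2 f F)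
    (hT : Enc e1 e2 t T) (hQ : Enc e1 e2 q Q) (hW : Enc e1 e2 w W)
    (h : fin3 F T Q W = true) : 0 ≤ f ∧ 0 ≤ q ∧ (0 ≤ t ∨ 0 ≤ w) := by
  simp only [fin3, Bool.and_eq_true, Bool.or_eq_true, decide_eq_true_eq] at h
  obtain ⟨⟨⟨⟨⟨⟨h1, h2⟩, h3⟩, h4⟩, h5⟩, h6⟩, h7⟩ := h
  refine ⟨hF.nonneg he h1 h5, hQ.nonneg he h3 h6, ?_⟩
  rcases h7 with h7 | h7
  · exact Or.inl (hT.nonneg he h2 h7)
  · exact Or.inr (hW.nonneg he h4 h7)

/-- quadratic forms -/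
lemma quad_nonneg {F T Q : ℝ} (hF : 0 ≤ F) (hQ : 0 ≤ Q) (h : 0 ≤ T ∨ 0 ≤ F * Q - T ^ 2)
    (z : ℝ) (hz : 0 ≤ z) : 0 ≤ F * z ^ 2 + 2 * T * z + Q := by
  rcases h with h | h
  · positivity
  · rcases hF.eq_or_lt with h0 | h0
    · have hT : T = 0 := by
        have : T ^ 2 ≤ 0 := by rw [← h0] at h; linarith
        nlinarith
      rw [← h0, hT]; linarith
    · have h1 : 0 ≤ F * (F * z ^ 2 + 2 * T * z + Q) := by
        have : F * (F * z ^ 2 + 2 * T * z + Q) = (F * z + T) ^ 2 + (F * Q - T ^ 2) := by ring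
        rw [this]; positivity
      exact nonneg_of_mul_nonneg_right h1 h0

theorem algD {m y : ℝ} (hm : 0 < m) (hy0 : 0 < y) (hy1 : y < 1)
    {vMU vD vLN vLO vLH vLQ vLP vDH vH vY vY2 vA vB vMM vKA vNU vN3 vW vOW vPP vIP vA2 vB2 vCM vU1 vU2 vJYY vF vJY vQ1 vQY vP vLL vPL vJM vJMM vOJ vQJ vV vVQ vFM vFMM vEM vEL vQ vGP vV1 vV3 vJMY vFMY vT vWW : ℝ}
    (eMU : vMU = 1 / (m + 1)) (eD : vD = 1 - y)
    (eLN : vLN = (Real.log vD))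
    (eLO : vLO = (-(vLN * cc)))
    (eLH : vLH = (Real.log ((1 : ℝ) + -(vD / 2))))
    (eLQ : vLQ = (vLH * cc))
    (eLP : vLP = ((1 : ℝ) + vLQ))
    (eDH : vDH = (-vLQ))
    (eH : vH = (vDH * (vD)⁻¹))
    (eY : vY = ((1 : ℝ) + -vD))
    (eY2 : vY2 = (vY ^ 2))
    (eA : vA = (((1 : ℝ) + -(vMU * vLP)))⁻¹)
    (eB : vB = (((1 : ℝ) + (vMU * vLO)))⁻¹)
    (eMM : vMM = ((1 : ℝ) + -vMU))
    (eKA : vKA = (((1 : ℝ) + (((3 : ℝ) * vMU) / 4)))⁻¹)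
    (eNU : vNU = (vMU * vKA))
    (eN3 : vN3 = (vNU * (vNU ^ 2)))
    (eW : vW = (((33 : ℝ) * vN3) / 5))
    (eOW : vOW = ((1 : ℝ) + -vW))
    (ePP : vPP = ((1 : ℝ) + -(vD / 2)))
    (eIP : vIP = (((2 : ℝ) + -vD))⁻¹)
    (eA2 : vA2 = (vA ^ 2))
    (eB2 : vB2 = (vB ^ 2))
    (eCM : vCM = ((2 : ℝ) * (vMU * cc)))
    (eU1 : vU1 = ((vD * vA2) * (((1 : ℝ) + (vCM * vA)) * vIP)))
    (eU2 : vU2 = (vB2 * ((1 : ℝ) + (vCM * vB))))
    (eJYY : vJYY = (((vMM * cc) * (vU1 + vU2)) / 2))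
    (eF : vF = ((vOW * vJYY) + (vW * (vD * ((4 : ℝ) + ((-12 : ℝ) * vY2))))))
    (eJY : vJY = ((vMM * (((vLP * vA) + (vLO * vB)) + (cc * (vA2 - vB2)))) / 2))
    (eQ1 : vQ1 = ((2 : ℝ) + -vD))
    (eQY : vQY = ((4 : ℝ) * (vY * (vD * vQ1))))
    (eP : vP = ((vOW * vJY) + (vW * vQY)))
    (eLL : vLL = (vLO * ((1 : ℝ) + vLO)))
    (ePL : vPL = (vPP * (vLP * vH)))
    (eJM : vJM = ((vPL * vA2) - ((vLL * vB2) / 2)))
    (eJMM : vJMM = ((vLL * (vB2 * vB)) - ((2 : ℝ) * (vPL * (vA2 * vA)))))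
    (eOJ : vOJ = (((vA * ((1 : ℝ) + ((((2 : ℝ) * vH) - (vD * vH)) - (vMU * vLP)))) + (vMM * (vLO * vB))) / 2))
    (eQJ : vQJ = (vOJ - (vD * (vQ1 ^ 2))))
    (eV : vV = (vNU * vKA))
    (eVQ : vVQ = ((vV ^ 2) * vQJ))
    (eFM : vFM = ((vOW * vJM) - (((99 : ℝ) * vVQ) / 5)))
    (eFMM : vFMM = (((vOW * (vMU * vJMM)) + (((198 : ℝ) * ((vN3 * vNU) * vJM)) / 5)) + (((396 : ℝ) * (vVQ * vNU)) / 5)))
    (eEM : vEM = ((1 : ℝ) + ((((1 : ℝ) + ((14 : ℝ) * vMU)))⁻¹ / 2)))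
    (eEL : vEL = ((vMU * vEM) + Real.log 2))
    (eQ : vQ = (vFMM - (vEL * vFM)))
    (eGP : vGP = (vLP * vDH))
    (eV1 : vV1 = (vA2 * ((vGP + (cc * ((1 : ℝ) + ((-2 : ℝ) * vLP)))) + (vCM * (vGP * vA)))))
    (eV3 : vV3 = (vB2 * ((vLL - (cc * ((1 : ℝ) + ((2 : ℝ) * vLO)))) + (vCM * (vLL * vB)))))
    (eJMY : vJMY = ((vV1 + vV3) / 2))
    (eFMY : vFMY = ((vOW * (vMU * vJMY)) - (((99 : ℝ) * ((vN3 * vKA) * (vQY - vJY))) / 5)))
    (eT : vT = (vFMY - ((vEM * vP) / 2)))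
    (eWW : vWW = ((vF * vQ) - (vT ^ 2)))
    (hfin : 0 ≤ vF ∧ 0 ≤ vQ ∧ (0 ≤ vT ∨ 0 ≤ vWW)) : N1at m y := by
  have hm1 : (0 : ℝ) < m + 1 := by linarith
  have hm1' : m + 1 ≠ 0 := hm1.ne'
  have hd : (0 : ℝ) < 1 - y := by linarith
  have hd' : 1 - y ≠ 0 := hd.ne'
  have hy1p : (1 : ℝ) + y ≠ 0 := by linarith
  have hl2 : 0 < Real.log 2 := by positivity
  have hl2' : Real.log 2 ≠ 0 := hl2.ne'
  have hlp1 : lp y ≤ 1 := by
    unfold Pool.MP324.lp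
    rw [Real.logb_le_iff_le_rpow (by norm_num) (by linarith)]
    norm_num; linarith
  have hlm0 : lm y ≤ 0 := by
    unfold lm
    exact Real.logb_nonpos (by norm_num) (by linarith) (by linarith)
  have hmlp : m + 1 - lp y ≠ 0 := by
    have : 0 < m + 1 - lp y := by linarith
    exact this.ne'
  have hmlm : m + 1 - lm y ≠ 0 := by
    have : 0 < m + 1 - lm y := by linarith
    exact this.ne'
  have hm74 : m + 7 / 4 ≠ 0 := by positivity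
  have hm15 : m + 15 ≠ 0 := by positivity
  -- the elementary quantities
  have fLO : vLO = -(lm y) := by
    rw [eLO, eLN, eD]; unfold lm Real.logb cc; ring
  have fLP : vLP = lp y := by
    rw [eLP, eLQ, eLH, eD]; unfold Pool.MP324.lp Real.logb cc
    have : (1 : ℝ) + -((1 - y) / 2) = (1 + y) / 2 := by ring
    rw [this, Real.log_div hy1p (by norm_num)]
    field_simp
    ring
  have fDH : vDH = 1 - lp y := by
    rw [eDH, ← fLP, eLP]; ring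
  have fH : vH = (1 - lp y) / (1 - y) := by
    rw [eH, fDH, eD]; rfl
  have fA : vA = (m + 1) * ap m y := by
    rw [eA, eMU, fLP]; unfold ap
    have h1 : (1 : ℝ) + -(1 / (m + 1) * lp y) = (m + 1 - lp y) / (m + 1) := by
      field_simp; ring
    rw [h1, inv_div]; ring
  have fB : vB = (m + 1) * am m y := by
    rw [eB, eMU, fLO]; unfold am
    have h1 : (1 : ℝ) + 1 / (m + 1) * -(lm y) = (m + 1 - lm y) / (m + 1) := by
      field_simp; ring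
    rw [h1, inv_div]; ring
  have ha : ap m y * (m + 1 - lp y) = 1 := by
    unfold ap; field_simp
  have fMM : vMM = m / (m + 1) := by
    rw [eMM, eMU]; field_simp; ring
  have fKA : vKA = (m + 1) / (m + 7 / 4) := by
    rw [eKA, eMU]
    have h1 : (1 : ℝ) + 3 * (1 / (m + 1)) / 4 = (m + 7 / 4) / (m + 1) := by
      field_simp; ring
    rw [h1, inv_div]
  have fNU : vNU = 1 / (m + 7 / 4) := by
    rw [eNU, eMU, fKA]; field_simp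
  have fW : vW = w m := by
    rw [eW, eN3, fNU]; unfold w; field_simp
  have fIP : vIP = 1 / (1 + y) := by
    rw [eIP, eD, show (2 : ℝ) + -(1 - y) = 1 + y by ring]; simp
  have fPP : vPP = (1 + y) / 2 := by
    rw [ePP, eD]; ring
  have fCM : vCM = 2 * cc / (m + 1) := by
    rw [eCM, eMU]; ring
  have fY : vY = y := by rw [eY, eD]; ring
  set a := ap m y with haa
  set b := am m y with hbb
  have fJYY : vJYY = (1 - y) * Jyy m y := by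
    rw [eJYY, eU1, eU2, eA2, eB2, fMM, fCM, fIP, fA, fB, eD]; unfold Jyy
    rw [← haa, ← hbb]
    field_simp
  have fJY : vJY = Jy m y := by
    rw [eJY, eA2, eB2, fMM, fLP, fLO, fA, fB]; unfold Jy
    rw [← haa, ← hbb]
    field_simp
    ring
  have fQY : vQY = qy y := by
    rw [eQY, eQ1, fY, eD]; unfold qy; ring
  have fLL : vLL = -gg (lm y) := by
    rw [eLL, fLO]; unfold gg; ring
  have fPL : vPL = (1 + y) / 2 * gg (lp y) / (1 - y) := by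
    rw [ePL, fPP, fLP, fH]; unfold gg; ring
  have fJM : vJM = (m + 1) ^ 2 * Jm m y / (1 - y) := by
    rw [eJM, eA2, eB2, fPL, fLL, fA, fB]; unfold Jm
    rw [← haa, ← hbb]
    field_simp
    ring
  have fJMM : vJMM = (m + 1) ^ 3 * Jmm m y / (1 - y) := by
    rw [eJMM, eA2, eB2, fPL, fLL, fA, fB]; unfold Jmm
    rw [← haa, ← hbb]
    field_simp
    ring
  have fJMY : vJMY = (m + 1) ^ 2 * Jmy m y := by
    rw [eJMY, eV1, eV3, eGP, eA2, eB2, fLL, fLP, fDH, fLO, fCM, fA, fB]; unfold Jmy gg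
    rw [← haa, ← hbb]
    field_simp
    ring
  have fOJ : vOJ = (1 - J m y) / (1 - y) := by
    rw [eOJ, fLP, fLO, fMM, fH, fA, fB, eMU, eD, eq_div_iff hd']; unfold J
    rw [← haa, ← hbb]
    field_simp
    linear_combination (2 : ℝ) * ha
  have fQJ : vQJ = (q y - J m y) / (1 - y) := by
    rw [eQJ, fOJ, eQ1, eD]; unfold q
    field_simp
    ring
  have fVQ : vVQ = (m + 1) ^ 2 * (q y - J m y) / ((m + 7 / 4) ^ 4 * (1 - y)) := by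
    rw [eVQ, eV, fNU, fKA, fQJ]
    field_simp
  have fFM : vFM = (m + 1) ^ 2 * fm m y / (1 - y) := by
    rw [eFM, eOW, fVQ, fJM, fW]; unfold fm w1 w
    field_simp
    ring
  have fFMM : vFMM = (m + 1) ^ 2 * fmm m y / (1 - y) := by
    rw [eFMM, eOW, fVQ, fJM, fJMM, fW, eN3, fNU, eMU]; unfold fmm w1 w2 w
    field_simp
    ring
  have fEM : vEM = (m + 1) * eps m := by
    rw [eEM, eMU]; unfold eps
    have h1 : (1 : ℝ) + 14 * (1 / (m + 1)) = (m + 15) / (m + 1) := by field_simp; ring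
    rw [h1, inv_div]; field_simp
  have fQ : vQ = (m + 1) ^ 2 * (fmm m y - (Real.log 2 + eps m) * fm m y) / (1 - y) := by
    rw [eQ, eEL, fEM, fFMM, fFM, eMU]
    field_simp
    ring
  have fP : vP = fy m y := by
    rw [eP, eOW, fW, fJY, fQY]; unfold fy; ring
  have fF : vF = (1 - y) * fyy m y := by
    rw [eF, eOW, fW, fJYY, eY2, fY, eD]; unfold fyy qyy; ring
  have fT : vT = (m + 1) * (fmy m y - eps m / 2 * fy m y) := by
    rw [eT, eFMY, eOW, fEM, fP, fJMY, fQY, fJY, fW, eN3, fNU, fKA, eMU]; unfold fmy w1 w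
    field_simp
    ring
  obtain ⟨k1, k2, k3⟩ := hfin
  have r1 : 0 ≤ fyy m y := by
    rw [fF] at k1; exact nonneg_of_mul_nonneg_right k1 hd
  have r2 : 0 ≤ fmm m y - (Real.log 2 + eps m) * fm m y := by
    rw [fQ] at k2
    have h1 : (m + 1) ^ 2 * (fmm m y - (Real.log 2 + eps m) * fm m y) / (1 - y) =
      ((m + 1) ^ 2 / (1 - y)) * (fmm m y - (Real.log 2 + eps m) * fm m y) := by ring
    rw [h1] at k2
    exact nonneg_of_mul_nonneg_right k2 (by positivity)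
  refine fun z hz => quad_nonneg r1 r2 ?_ z hz
  rcases k3 with k3 | k3
  · left
    rw [fT] at k3
    exact nonneg_of_mul_nonneg_right k3 hm1
  · right
    rw [eWW, fF, fQ, fT] at k3
    have h1 : (1 - y) * fyy m y * ((m + 1) ^ 2 * (fmm m y - (Real.log 2 + eps m) * fm m y) /
        (1 - y)) - ((m + 1) * (fmy m y - eps m / 2 * fy m y)) ^ 2 =
        (m + 1) ^ 2 * (fyy m y * (fmm m y - (Real.log 2 + eps m) * fm m y) -
          (fmy m y - eps m / 2 * fy m y) ^ 2) := by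
      field_simp
    rw [h1] at k3
    exact nonneg_of_mul_nonneg_right k3 (by positivity)

theorem boxD_sound {e1 e2 : ℝ} (he : Env e1 e2) {m y : ℝ} (hm : 0 < m) (hy0 : 0 < y)
    (hy1 : y < 1) {MU D : AF} (hMU' : Enc e1 e2 (1 / (m + 1)) MU) (hD' : Enc e1 e2 (1 - y) D)
    (h : boxD MU D = true) : N1at m y := by
  have hcc : Enc e1 e2 Pool.MP324.cc AF.cc := enc_cc e1 e2
  obtain ⟨vMU, eMU, hMU⟩ : ∃ v, v = 1 / (m + 1) ∧ Enc e1 e2 v MU := ⟨_, rfl, hMU'⟩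
  obtain ⟨vD, eD, hD⟩ : ∃ v, v = 1 - y ∧ Enc e1 e2 v D := ⟨_, rfl, hD'⟩
  unfold boxD at h
  extract_lets LN LO LH LQ LP DH H Y Y2 A B MM KA NU N3 W OW PP IP A2 B2 CM U1 U2 JYY F JY Q1 QY P LL PL JM JMM OJ QJ V VQ FM FMM EM EL Q GP V1 V3 JMY FMY T WW at h
  obtain ⟨vLN, eLN, hLN⟩ : ∃ v, v = (Real.log vD) ∧ Enc e1 e2 v LN :=
    ⟨_, rfl, Enc.congr (by first | (with_reducible rfl) | (push_cast; done) | (push_cast; ring)) (Enc.ln he hD)⟩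
  obtain ⟨vLO, eLO, hLO⟩ : ∃ v, v = (-(vLN * cc)) ∧ Enc e1 e2 v LO :=
    ⟨_, rfl, Enc.congr (by first | (with_reducible rfl) | (push_cast; done) | (push_cast; ring)) (Enc.neg (Enc.mul he hLN hcc))⟩
  obtain ⟨vLH, eLH, hLH⟩ : ∃ v, v = (Real.log ((1 : ℝ) + -(vD / 2))) ∧ Enc e1 e2 v LH :=
    ⟨_, rfl, Enc.congr (by first | (with_reducible rfl) | (push_cast; done) | (push_cast; ring)) (Enc.ln he (Enc.addi (1) (Enc.neg (Enc.divn he (q := 2) (by norm_num) hD))))⟩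
  obtain ⟨vLQ, eLQ, hLQ⟩ : ∃ v, v = (vLH * cc) ∧ Enc e1 e2 v LQ :=
    ⟨_, rfl, Enc.congr (by first | (with_reducible rfl) | (push_cast; done) | (push_cast; ring)) (Enc.mul he hLH hcc)⟩
  obtain ⟨vLP, eLP, hLP⟩ : ∃ v, v = ((1 : ℝ) + vLQ) ∧ Enc e1 e2 v LP :=
    ⟨_, rfl, Enc.congr (by first | (with_reducible rfl) | (push_cast; done) | (push_cast; ring)) (Enc.addi (1) hLQ)⟩
  obtain ⟨vDH, eDH, hDH⟩ : ∃ v, v = (-vLQ) ∧ Enc e1 e2 v DH :=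
    ⟨_, rfl, Enc.congr (by first | (with_reducible rfl) | (push_cast; done) | (push_cast; ring)) (Enc.neg hLQ)⟩
  obtain ⟨vH, eH, hH⟩ : ∃ v, v = (vDH * (vD)⁻¹) ∧ Enc e1 e2 v H :=
    ⟨_, rfl, Enc.congr (by first | (with_reducible rfl) | (push_cast; done) | (push_cast; ring)) (Enc.mul he hDH (Enc.inv he hD))⟩
  obtain ⟨vY, eY, hY⟩ : ∃ v, v = ((1 : ℝ) + -vD) ∧ Enc e1 e2 v Y :=
    ⟨_, rfl, Enc.congr (by first | (with_reducible rfl) | (push_cast; done) | (push_cast; ring)) (Enc.addi (1) (Enc.neg hD))⟩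
  obtain ⟨vY2, eY2, hY2⟩ : ∃ v, v = (vY ^ 2) ∧ Enc e1 e2 v Y2 :=
    ⟨_, rfl, Enc.congr (by first | (with_reducible rfl) | (push_cast; done) | (push_cast; ring)) (Enc.sq he hY)⟩
  obtain ⟨vA, eA, hA⟩ : ∃ v, v = (((1 : ℝ) + -(vMU * vLP)))⁻¹ ∧ Enc e1 e2 v A :=
    ⟨_, rfl, Enc.congr (by first | (with_reducible rfl) | (push_cast; done) | (push_cast; ring)) (Enc.inv he (Enc.addi (1) (Enc.neg (Enc.mul he hMU hLP))))⟩
  obtain ⟨vB, eB, hB⟩ : ∃ v, v = (((1 : ℝ) + (vMU * vLO)))⁻¹ ∧ Enc e1 e2 v B :=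
    ⟨_, rfl, Enc.congr (by first | (with_reducible rfl) | (push_cast; done) | (push_cast; ring)) (Enc.inv he (Enc.addi (1) (Enc.mul he hMU hLO)))⟩
  obtain ⟨vMM, eMM, hMM⟩ : ∃ v, v = ((1 : ℝ) + -vMU) ∧ Enc e1 e2 v MM :=
    ⟨_, rfl, Enc.congr (by first | (with_reducible rfl) | (push_cast; done) | (push_cast; ring)) (Enc.addi (1) (Enc.neg hMU))⟩
  obtain ⟨vKA, eKA, hKA⟩ : ∃ v, v = (((1 : ℝ) + (((3 : ℝ) * vMU) / 4)))⁻¹ ∧ Enc e1 e2 v KA :=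
    ⟨_, rfl, Enc.congr (by first | (with_reducible rfl) | (push_cast; done) | (push_cast; ring)) (Enc.inv he (Enc.addi (1) (Enc.divn he (q := 4) (by norm_num) (Enc.smul (3) hMU))))⟩
  obtain ⟨vNU, eNU, hNU⟩ : ∃ v, v = (vMU * vKA) ∧ Enc e1 e2 v NU :=
    ⟨_, rfl, Enc.congr (by first | (with_reducible rfl) | (push_cast; done) | (push_cast; ring)) (Enc.mul he hMU hKA)⟩
  obtain ⟨vN3, eN3, hN3⟩ : ∃ v, v = (vNU * (vNU ^ 2)) ∧ Enc e1 e2 v N3 :=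
    ⟨_, rfl, Enc.congr (by first | (with_reducible rfl) | (push_cast; done) | (push_cast; ring)) (Enc.mul he hNU (Enc.sq he hNU))⟩
  obtain ⟨vW, eW, hW⟩ : ∃ v, v = (((33 : ℝ) * vN3) / 5) ∧ Enc e1 e2 v W :=
    ⟨_, rfl, Enc.congr (by first | (with_reducible rfl) | (push_cast; done) | (push_cast; ring)) (Enc.divn he (q := 5) (by norm_num) (Enc.smul (33) hN3))⟩
  obtain ⟨vOW, eOW, hOW⟩ : ∃ v, v = ((1 : ℝ) + -vW) ∧ Enc e1 e2 v OW :=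
    ⟨_, rfl, Enc.congr (by first | (with_reducible rfl) | (push_cast; done) | (push_cast; ring)) (Enc.addi (1) (Enc.neg hW))⟩
  obtain ⟨vPP, ePP, hPP⟩ : ∃ v, v = ((1 : ℝ) + -(vD / 2)) ∧ Enc e1 e2 v PP :=
    ⟨_, rfl, Enc.congr (by first | (with_reducible rfl) | (push_cast; done) | (push_cast; ring)) (Enc.addi (1) (Enc.neg (Enc.divn he (q := 2) (by norm_num) hD)))⟩
  obtain ⟨vIP, eIP, hIP⟩ : ∃ v, v = (((2 : ℝ) + -vD))⁻¹ ∧ Enc e1 e2 v IP :=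
    ⟨_, rfl, Enc.congr (by first | (with_reducible rfl) | (push_cast; done) | (push_cast; ring)) (Enc.inv he (Enc.addi (2) (Enc.neg hD)))⟩
  obtain ⟨vA2, eA2, hA2⟩ : ∃ v, v = (vA ^ 2) ∧ Enc e1 e2 v A2 :=
    ⟨_, rfl, Enc.congr (by first | (with_reducible rfl) | (push_cast; done) | (push_cast; ring)) (Enc.sq he hA)⟩
  obtain ⟨vB2, eB2, hB2⟩ : ∃ v, v = (vB ^ 2) ∧ Enc e1 e2 v B2 :=
    ⟨_, rfl, Enc.congr (by first | (with_reducible rfl) | (push_cast; done) | (push_cast; ring)) (Enc.sq he hB)⟩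
  obtain ⟨vCM, eCM, hCM⟩ : ∃ v, v = ((2 : ℝ) * (vMU * cc)) ∧ Enc e1 e2 v CM :=
    ⟨_, rfl, Enc.congr (by first | (with_reducible rfl) | (push_cast; done) | (push_cast; ring)) (Enc.smul (2) (Enc.mul he hMU hcc))⟩
  obtain ⟨vU1, eU1, hU1⟩ : ∃ v, v = ((vD * vA2) * (((1 : ℝ) + (vCM * vA)) * vIP)) ∧ Enc e1 e2 v U1 :=
    ⟨_, rfl, Enc.congr (by first | (with_reducible rfl) | (push_cast; done) | (push_cast; ring)) (Enc.mul he (Enc.mul he hD hA2) (Enc.mul he (Enc.addi (1) (Enc.mul he hCM hA)) hIP))⟩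
  obtain ⟨vU2, eU2, hU2⟩ : ∃ v, v = (vB2 * ((1 : ℝ) + (vCM * vB))) ∧ Enc e1 e2 v U2 :=
    ⟨_, rfl, Enc.congr (by first | (with_reducible rfl) | (push_cast; done) | (push_cast; ring)) (Enc.mul he hB2 (Enc.addi (1) (Enc.mul he hCM hB)))⟩
  obtain ⟨vJYY, eJYY, hJYY⟩ : ∃ v, v = (((vMM * cc) * (vU1 + vU2)) / 2) ∧ Enc e1 e2 v JYY :=
    ⟨_, rfl, Enc.congr (by first | (with_reducible rfl) | (push_cast; done) | (push_cast; ring)) (Enc.divn he (q := 2) (by norm_num) (Enc.mul he (Enc.mul he hMM hcc) (Enc.add hU1 hU2)))⟩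
  obtain ⟨vF, eF, hF⟩ : ∃ v, v = ((vOW * vJYY) + (vW * (vD * ((4 : ℝ) + ((-12 : ℝ) * vY2))))) ∧ Enc e1 e2 v F :=
    ⟨_, rfl, Enc.congr (by first | (with_reducible rfl) | (push_cast; done) | (push_cast; ring)) (Enc.add (Enc.mul he hOW hJYY) (Enc.mul he hW (Enc.mul he hD (Enc.addi (4) (Enc.smul (-12) hY2)))))⟩
  obtain ⟨vJY, eJY, hJY⟩ : ∃ v, v = ((vMM * (((vLP * vA) + (vLO * vB)) + (cc * (vA2 - vB2)))) / 2) ∧ Enc e1 e2 v JY :=
    ⟨_, rfl, Enc.congr (by first | (with_reducible rfl) | (push_cast; done) | (push_cast; ring)) (Enc.divn he (q := 2) (by norm_num) (Enc.mul he hMM (Enc.add (Enc.add (Enc.mul he hLP hA) (Enc.mul he hLO hB)) (Enc.mul he hcc (Enc.sub hA2 hB2)))))⟩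
  obtain ⟨vQ1, eQ1, hQ1⟩ : ∃ v, v = ((2 : ℝ) + -vD) ∧ Enc e1 e2 v Q1 :=
    ⟨_, rfl, Enc.congr (by first | (with_reducible rfl) | (push_cast; done) | (push_cast; ring)) (Enc.addi (2) (Enc.neg hD))⟩
  obtain ⟨vQY, eQY, hQY⟩ : ∃ v, v = ((4 : ℝ) * (vY * (vD * vQ1))) ∧ Enc e1 e2 v QY :=
    ⟨_, rfl, Enc.congr (by first | (with_reducible rfl) | (push_cast; done) | (push_cast; ring)) (Enc.smul (4) (Enc.mul he hY (Enc.mul he hD hQ1)))⟩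
  obtain ⟨vP, eP, hP⟩ : ∃ v, v = ((vOW * vJY) + (vW * vQY)) ∧ Enc e1 e2 v P :=
    ⟨_, rfl, Enc.congr (by first | (with_reducible rfl) | (push_cast; done) | (push_cast; ring)) (Enc.add (Enc.mul he hOW hJY) (Enc.mul he hW hQY))⟩
  obtain ⟨vLL, eLL, hLL⟩ : ∃ v, v = (vLO * ((1 : ℝ) + vLO)) ∧ Enc e1 e2 v LL :=
    ⟨_, rfl, Enc.congr (by first | (with_reducible rfl) | (push_cast; done) | (push_cast; ring)) (Enc.mul he hLO (Enc.addi (1) hLO))⟩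
  obtain ⟨vPL, ePL, hPL⟩ : ∃ v, v = (vPP * (vLP * vH)) ∧ Enc e1 e2 v PL :=
    ⟨_, rfl, Enc.congr (by first | (with_reducible rfl) | (push_cast; done) | (push_cast; ring)) (Enc.mul he hPP (Enc.mul he hLP hH))⟩
  obtain ⟨vJM, eJM, hJM⟩ : ∃ v, v = ((vPL * vA2) - ((vLL * vB2) / 2)) ∧ Enc e1 e2 v JM :=
    ⟨_, rfl, Enc.congr (by first | (with_reducible rfl) | (push_cast; done) | (push_cast; ring)) (Enc.sub (Enc.mul he hPL hA2) (Enc.divn he (q := 2) (by norm_num) (Enc.mul he hLL hB2)))⟩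
  obtain ⟨vJMM, eJMM, hJMM⟩ : ∃ v, v = ((vLL * (vB2 * vB)) - ((2 : ℝ) * (vPL * (vA2 * vA)))) ∧ Enc e1 e2 v JMM :=
    ⟨_, rfl, Enc.congr (by first | (with_reducible rfl) | (push_cast; done) | (push_cast; ring)) (Enc.sub (Enc.mul he hLL (Enc.mul he hB2 hB)) (Enc.smul (2) (Enc.mul he hPL (Enc.mul he hA2 hA))))⟩
  obtain ⟨vOJ, eOJ, hOJ⟩ : ∃ v, v = (((vA * ((1 : ℝ) + ((((2 : ℝ) * vH) - (vD * vH)) - (vMU * vLP)))) + (vMM * (vLO * vB))) / 2) ∧ Enc e1 e2 v OJ :=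
    ⟨_, rfl, Enc.congr (by first | (with_reducible rfl) | (push_cast; done) | (push_cast; ring)) (Enc.divn he (q := 2) (by norm_num) (Enc.add (Enc.mul he hA (Enc.addi (1) (Enc.sub (Enc.sub (Enc.smul (2) hH) (Enc.mul he hD hH)) (Enc.mul he hMU hLP)))) (Enc.mul he hMM (Enc.mul he hLO hB))))⟩
  obtain ⟨vQJ, eQJ, hQJ⟩ : ∃ v, v = (vOJ - (vD * (vQ1 ^ 2))) ∧ Enc e1 e2 v QJ :=
    ⟨_, rfl, Enc.congr (by first | (with_reducible rfl) | (push_cast; done) | (push_cast; ring)) (Enc.sub hOJ (Enc.mul he hD (Enc.sq he hQ1)))⟩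
  obtain ⟨vV, eV, hV⟩ : ∃ v, v = (vNU * vKA) ∧ Enc e1 e2 v V :=
    ⟨_, rfl, Enc.congr (by first | (with_reducible rfl) | (push_cast; done) | (push_cast; ring)) (Enc.mul he hNU hKA)⟩
  obtain ⟨vVQ, eVQ, hVQ⟩ : ∃ v, v = ((vV ^ 2) * vQJ) ∧ Enc e1 e2 v VQ :=
    ⟨_, rfl, Enc.congr (by first | (with_reducible rfl) | (push_cast; done) | (push_cast; ring)) (Enc.mul he (Enc.sq he hV) hQJ)⟩
  obtain ⟨vFM, eFM, hFM⟩ : ∃ v, v = ((vOW * vJM) - (((99 : ℝ) * vVQ) / 5)) ∧ Enc e1 e2 v FM :=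
    ⟨_, rfl, Enc.congr (by first | (with_reducible rfl) | (push_cast; done) | (push_cast; ring)) (Enc.sub (Enc.mul he hOW hJM) (Enc.divn he (q := 5) (by norm_num) (Enc.smul (99) hVQ)))⟩
  obtain ⟨vFMM, eFMM, hFMM⟩ : ∃ v, v = (((vOW * (vMU * vJMM)) + (((198 : ℝ) * ((vN3 * vNU) * vJM)) / 5)) + (((396 : ℝ) * (vVQ * vNU)) / 5)) ∧ Enc e1 e2 v FMM :=
    ⟨_, rfl, Enc.congr (by first | (with_reducible rfl) | (push_cast; done) | (push_cast; ring)) (Enc.add (Enc.add (Enc.mul he hOW (Enc.mul he hMU hJMM)) (Enc.divn he (q := 5) (by norm_num) (Enc.smul (198) (Enc.mul he (Enc.mul he hN3 hNU) hJM)))) (Enc.divn he (q := 5) (by norm_num) (Enc.smul (396) (Enc.mul he hVQ hNU))))⟩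
  obtain ⟨vEM, eEM, hEM⟩ : ∃ v, v = ((1 : ℝ) + ((((1 : ℝ) + ((14 : ℝ) * vMU)))⁻¹ / 2)) ∧ Enc e1 e2 v EM :=
    ⟨_, rfl, Enc.congr (by first | (with_reducible rfl) | (push_cast; done) | (push_cast; ring)) (Enc.addi (1) (Enc.divn he (q := 2) (by norm_num) (Enc.inv he (Enc.addi (1) (Enc.smul (14) hMU)))))⟩
  obtain ⟨vEL, eEL, hEL⟩ : ∃ v, v = ((vMU * vEM) + Real.log 2) ∧ Enc e1 e2 v EL :=
    ⟨_, rfl, Enc.congr (by first | (with_reducible rfl) | (push_cast; done) | (push_cast; ring)) (Enc.add (Enc.mul he hMU hEM) (enc_ln2 e1 e2))⟩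
  obtain ⟨vQ, eQ, hQ⟩ : ∃ v, v = (vFMM - (vEL * vFM)) ∧ Enc e1 e2 v Q :=
    ⟨_, rfl, Enc.congr (by first | (with_reducible rfl) | (push_cast; done) | (push_cast; ring)) (Enc.sub hFMM (Enc.mul he hEL hFM))⟩
  obtain ⟨vGP, eGP, hGP⟩ : ∃ v, v = (vLP * vDH) ∧ Enc e1 e2 v GP :=
    ⟨_, rfl, Enc.congr (by first | (with_reducible rfl) | (push_cast; done) | (push_cast; ring)) (Enc.mul he hLP hDH)⟩
  obtain ⟨vV1, eV1, hV1⟩ : ∃ v, v = (vA2 * ((vGP + (cc * ((1 : ℝ) + ((-2 : ℝ) * vLP)))) + (vCM * (vGP * vA)))) ∧ Enc e1 e2 v V1 :=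
    ⟨_, rfl, Enc.congr (by first | (with_reducible rfl) | (push_cast; done) | (push_cast; ring)) (Enc.mul he hA2 (Enc.add (Enc.add hGP (Enc.mul he hcc (Enc.addi (1) (Enc.smul (-2) hLP)))) (Enc.mul he hCM (Enc.mul he hGP hA))))⟩
  obtain ⟨vV3, eV3, hV3⟩ : ∃ v, v = (vB2 * ((vLL - (cc * ((1 : ℝ) + ((2 : ℝ) * vLO)))) + (vCM * (vLL * vB)))) ∧ Enc e1 e2 v V3 :=
    ⟨_, rfl, Enc.congr (by first | (with_reducible rfl) | (push_cast; done) | (push_cast; ring)) (Enc.mul he hB2 (Enc.add (Enc.sub hLL (Enc.mul he hcc (Enc.addi (1) (Enc.smul (2) hLO)))) (Enc.mul he hCM (Enc.mul he hLL hB))))⟩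
  obtain ⟨vJMY, eJMY, hJMY⟩ : ∃ v, v = ((vV1 + vV3) / 2) ∧ Enc e1 e2 v JMY :=
    ⟨_, rfl, Enc.congr (by first | (with_reducible rfl) | (push_cast; done) | (push_cast; ring)) (Enc.divn he (q := 2) (by norm_num) (Enc.add hV1 hV3))⟩
  obtain ⟨vFMY, eFMY, hFMY⟩ : ∃ v, v = ((vOW * (vMU * vJMY)) - (((99 : ℝ) * ((vN3 * vKA) * (vQY - vJY))) / 5)) ∧ Enc e1 e2 v FMY :=
    ⟨_, rfl, Enc.congr (by first | (with_reducible rfl) | (push_cast; done) | (push_cast; ring)) (Enc.sub (Enc.mul he hOW (Enc.mul he hMU hJMY)) (Enc.divn he (q := 5) (by norm_num) (Enc.smul (99) (Enc.mul he (Enc.mul he hN3 hKA) (Enc.sub hQY hJY)))))⟩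
  obtain ⟨vT, eT, hT⟩ : ∃ v, v = (vFMY - ((vEM * vP) / 2)) ∧ Enc e1 e2 v T :=
    ⟨_, rfl, Enc.congr (by first | (with_reducible rfl) | (push_cast; done) | (push_cast; ring)) (Enc.sub hFMY (Enc.divn he (q := 2) (by norm_num) (Enc.mul he hEM hP)))⟩
  obtain ⟨vWW, eWW, hWW⟩ : ∃ v, v = ((vF * vQ) - (vT ^ 2)) ∧ Enc e1 e2 v WW :=
    ⟨_, rfl, Enc.congr (by first | (with_reducible rfl) | (push_cast; done) | (push_cast; ring)) (Enc.sub (Enc.mul he hF hQ) (Enc.sq he hT))⟩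
  have hfin := fin3_sound he hF hT hQ hWW h
  clear hLN hLO hLH hLQ hLP hDH hH hY hY2 hA hB hMM hKA hNU hN3 hW hOW hPP hIP hA2 hB2 hCM hU1
    hU2 hJYY hF hJY hQ1 hQY hP hLL hPL hJM hJMM hOJ hQJ hV hVQ hFM hFMM hEM hEL hQ hGP hV1 hV3
    hJMY hFMY hT hWW hMU hD hcc h
  clear hMU' hD'
  clear_value LN LO LH LQ LP DH H Y Y2 A B MM KA NU N3 W OW PP IP A2 B2 CM U1 U2 JYY F JY Q1 QY P LL PL JM JMM OJ QJ V VQ FM FMM EM EL Q GP V1 V3 JMY FMY T WW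
  clear LN LO LH LQ LP DH H Y Y2 A B MM KA NU N3 W OW PP IP A2 B2 CM U1 U2 JYY F JY Q1 QY P LL PL JM JMM OJ QJ V VQ FM FMM EM EL Q GP V1 V3 JMY FMY T WW
  exact algD hm hy0 hy1 eMU eD eLN eLO eLH eLQ eLP eDH eH eY eY2 eA eB eMM eKA eNU eN3 eW eOW ePP
    eIP eA2 eB2 eCM eU1 eU2 eJYY eF eJY eQ1 eQY eP eLL ePL eJM eJMM eOJ eQJ eV eVQ eFM eFMM eEM
    eEL eQ eGP eV1 eV3 eJMY eFMY eT eWW hfin

end H76TL
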