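import Pool.Agent.H76.TL.P3
import Pool.Agent.H76.TL.S2

set_option autoImplicit false

namespace H76TL

open Pool.MP324

theorem algT {m y L : ℝ} (hm : 0 < m) (hy0 : 0 < y) (hy1 : y < 1) (hL : L = -(lm y)) (hL0 : 0 < L)
    {vSS vTH vD vH vET vLAM vMU vDH vLP vY vY2 vA vMM vKA vNU vN3 vW vOW vPP vIP vA2 vB2 vS2 vCM vU1 vU2 vJYY vF vSJ vQ1 vQY vSP vPL vJM vJMM vSQJ vV vVQ vFM vFMM vEM vEL vQ vGP vV1 vSMJ vSFMY vT vWW : ℝ}
    (eSS : vSS = 1 / (m + 1) + 1 / L) (eTH : vTH = (m + 1) * am m y) (eD : vD = 1 - y)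
    (eH : vH = (1 - Pool.MP324.lp y) / (1 - y)) (eET : vET = (1 - y) / ((m + 1) * am m y) ^ 2)
    (eLAM : vLAM = (vTH * vSS))
    (eMU : vMU = (vSS - vLAM))
    (eDH : vDH = (vD * vH))
    (eLP : vLP = ((1 : ℝ) + -vDH))
    (eY : vY = ((1 : ℝ) + -vD))
    (eY2 : vY2 = (vY ^ 2))
    (eA : vA = (((1 : ℝ) + -(vMU * vLP)))⁻¹)
    (eMM : vMM = ((1 : ℝ) + -vMU))
    (eKA : vKA = (((1 : ℝ) + (((3 : ℝ) * vMU) / 4)))⁻¹)
    (eNU : vNU = (vMU * vKA))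
    (eN3 : vN3 = (vNU * (vNU ^ 2)))
    (eW : vW = (((33 : ℝ) * vN3) / 5))
    (eOW : vOW = ((1 : ℝ) + -vW))
    (ePP : vPP = ((1 : ℝ) + -(vD / 2)))
    (eIP : vIP = (((2 : ℝ) + -vD))⁻¹)
    (eA2 : vA2 = (vA ^ 2))
    (eB2 : vB2 = (vTH ^ 2))
    (eS2 : vS2 = (vSS ^ 2))
    (eCM : vCM = ((2 : ℝ) * (vMU * cc)))
    (eU1 : vU1 = ((vET * vA2) * (((1 : ℝ) + (vCM * vA)) * vIP)))
    (eU2 : vU2 = ((1 : ℝ) + (vCM * vTH)))
    (eJYY : vJYY = (((vMM * cc) * (vU1 + vU2)) / 2))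
    (eF : vF = ((vOW * vJYY) + (vW * (vET * ((4 : ℝ) + ((-12 : ℝ) * vY2))))))
    (eSJ : vSJ = ((vMM * ((1 : ℝ) + (vSS * ((vLP * vA) + (cc * (vA2 - vB2)))))) / 2))
    (eQ1 : vQ1 = ((2 : ℝ) + -vD))
    (eQY : vQY = ((4 : ℝ) * (vY * (vD * vQ1))))
    (eSP : vSP = ((vOW * vSJ) + (vSS * (vW * vQY))))
    (ePL : vPL = (vPP * (vLP * vH)))
    (eJM : vJM = ((vS2 * (vPL * vA2)) - (((1 : ℝ) + vLAM) / 2)))
    (eJMM : vJMM = ((((1 : ℝ) + vLAM) * vTH) - ((2 : ℝ) * (vS2 * (vPL * (vA2 * vA))))))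
    (eSQJ : vSQJ = ((((vSS * (vA * ((1 : ℝ) + ((((2 : ℝ) * vH) - vDH) - (vMU * vLP))))) + vMM) / 2) - (vSS * (vD * (vQ1 ^ 2)))))
    (eV : vV = (vNU * vKA))
    (eVQ : vVQ = (vSS * ((vV ^ 2) * vSQJ)))
    (eFM : vFM = ((vOW * vJM) - (((99 : ℝ) * vVQ) / 5)))
    (eFMM : vFMM = (((vOW * (vMU * vJMM)) + (((198 : ℝ) * ((vN3 * vNU) * vJM)) / 5)) + (((396 : ℝ) * (vVQ * vNU)) / 5)))
    (eEM : vEM = ((1 : ℝ) + ((((1 : ℝ) + ((14 : ℝ) * vMU)))⁻¹ / 2)))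
    (eEL : vEL = ((vMU * vEM) + Real.log 2))
    (eQ : vQ = (vFMM - (vEL * vFM)))
    (eGP : vGP = (vLP * vDH))
    (eV1 : vV1 = (vA2 * ((vGP + (cc * ((1 : ℝ) + ((-2 : ℝ) * vLP)))) + (vCM * (vGP * vA)))))
    (eSMJ : vSMJ = ((((vSS * (vMU * vV1)) + (((1 : ℝ) + -vTH) * (((1 : ℝ) + vLAM) * ((1 : ℝ) + (vCM * vTH))))) - ((vMU * cc) * ((vSS * vB2) + ((2 : ℝ) * vTH)))) / 2))
    (eSFMY : vSFMY = ((vOW * vSMJ) - (((99 : ℝ) * ((vN3 * vKA) * ((vSS * vQY) - vSJ))) / 5)))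
    (eT : vT = (vSFMY - ((vEM * vSP) / 2)))
    (eWW : vWW = ((vB2 * (vF * vQ)) - (vT ^ 2)))
    (hfin : 0 ≤ vF ∧ 0 ≤ vQ ∧ (0 ≤ vT ∨ 0 ≤ vWW)) : N1at m y := by
  have hm1 : (0 : ℝ) < m + 1 := by linarith
  have hm1' : m + 1 ≠ 0 := hm1.ne'
  have hd : (0 : ℝ) < 1 - y := by linarith
  have hd' : 1 - y ≠ 0 := hd.ne'
  have hy1p : (1 : ℝ) + y ≠ 0 := by linarith
  have hL' : L ≠ 0 := hL0.ne'
  have hl2 : 0 < Real.log 2 := by positivity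
  have hl2' : Real.log 2 ≠ 0 := hl2.ne'
  have hlp1 : Pool.MP324.lp y ≤ 1 := by
    unfold Pool.MP324.lp
    rw [Real.logb_le_iff_le_rpow (by norm_num) (by linarith)]
    norm_num; linarith
  have hmlp : m + 1 - Pool.MP324.lp y ≠ 0 := by
    have : 0 < m + 1 - Pool.MP324.lp y := by linarith
    exact this.ne'
  have hmL : 0 < m + 1 + L := by linarith
  have hmL' : m + 1 + L ≠ 0 := hmL.ne'
  have hm74 : m + 7 / 4 ≠ 0 := by positivity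
  have hm15 : m + 15 ≠ 0 := by positivity
  have hlm : lm y = -L := by rw [hL]; ring
  have fb : am m y = 1 / (m + 1 + L) := by
    unfold am; rw [hlm]; ring
  have fTH : vTH = (m + 1) / (m + 1 + L) := by rw [eTH, fb]; ring
  have fSS : vSS = (m + 1 + L) / ((m + 1) * L) := by
    rw [eSS]; field_simp; ring
  have fLAM : vLAM = 1 / L := by
    rw [eLAM, fTH, fSS]; field_simp
  have fMU : vMU = 1 / (m + 1) := by
    rw [eMU, eSS, fLAM]; ring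
  have fET : vET = (1 - y) * (m + 1 + L) ^ 2 / (m + 1) ^ 2 := by
    rw [eET, fb]; field_simp
  have fDH : vDH = 1 - Pool.MP324.lp y := by
    rw [eDH, eD, eH]; field_simp
  have fLP : vLP = Pool.MP324.lp y := by
    rw [eLP, fDH]; ring
  have fA : vA = (m + 1) * ap m y := by
    rw [eA, fMU, fLP]; unfold ap
    have h1 : (1 : ℝ) + -(1 / (m + 1) * Pool.MP324.lp y) =
        (m + 1 - Pool.MP324.lp y) / (m + 1) := by
      field_simp; ring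
    rw [h1, inv_div]; ring
  have ha : ap m y * (m + 1 - Pool.MP324.lp y) = 1 := by
    unfold ap; field_simp
  have fMM : vMM = m / (m + 1) := by
    rw [eMM, fMU]; field_simp; ring
  have fKA : vKA = (m + 1) / (m + 7 / 4) := by
    rw [eKA, fMU]
    have h1 : (1 : ℝ) + 3 * (1 / (m + 1)) / 4 = (m + 7 / 4) / (m + 1) := by
      field_simp; ring
    rw [h1, inv_div]
  have fNU : vNU = 1 / (m + 7 / 4) := by
    rw [eNU, fMU, fKA]; field_simp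
  have fW : vW = w m := by
    rw [eW, eN3, fNU]; unfold w; field_simp
  have fIP : vIP = 1 / (1 + y) := by
    rw [eIP, eD, show (2 : ℝ) + -(1 - y) = 1 + y by ring]; simp
  have fPP : vPP = (1 + y) / 2 := by
    rw [ePP, eD]; ring
  have fCM : vCM = 2 * cc / (m + 1) := by
    rw [eCM, fMU]; ring
  have fY : vY = y := by rw [eY, eD]; ring
  set a := ap m y with haa
  have fJYY : vJYY = (1 - y) * Jyy m y * (m + 1 + L) ^ 2 / (m + 1) ^ 2 := by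
    rw [eJYY, eU1, eU2, eA2, fMM, fCM, fIP, fA, fTH, fET]; unfold Jyy
    rw [← haa, fb]
    field_simp
  have fSJ : vSJ = (m + 1 + L) / ((m + 1) * L) * Jy m y := by
    rw [eSJ, eA2, eB2, fMM, fLP, fA, fTH, fSS]; unfold Jy
    rw [← haa, hlm, fb]
    field_simp
    ring
  have fQY : vQY = qy y := by
    rw [eQY, eQ1, fY, eD]; unfold qy; ring
  have fPL : vPL = (1 + y) / 2 * gg (Pool.MP324.lp y) / (1 - y) := by
    rw [ePL, fPP, fLP, eH]; unfold gg; ring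
  have fJM : vJM = ((m + 1 + L) / ((m + 1) * L)) ^ 2 * ((m + 1) ^ 2 * Jm m y / (1 - y)) := by
    rw [eJM, eA2, eS2, fPL, fA, fSS, fLAM]; unfold Jm
    rw [← haa, hlm, fb]
    unfold gg
    field_simp
    ring
  have fJMM : vJMM = ((m + 1 + L) / ((m + 1) * L)) ^ 2 * ((m + 1) ^ 3 * Jmm m y / (1 - y)) := by
    rw [eJMM, eA2, eS2, fPL, fA, fSS, fLAM, fTH]; unfold Jmm
    rw [← haa, hlm, fb]
    unfold gg
    field_simp
    ring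
  have fSMJ : vSMJ = (m + 1 + L) / ((m + 1) * L) * ((m + 1) * Jmy m y) := by
    rw [eSMJ, eV1, eGP, eA2, eB2, fLP, fDH, fCM, fA, fTH, fSS, fMU, fLAM]; unfold Jmy
    rw [← haa, hlm, fb]
    unfold gg
    field_simp
    ring
  have fSQJ : vSQJ = (m + 1 + L) / ((m + 1) * L) * ((q y - J m y) / (1 - y)) := by
    rw [eSQJ, eQ1, fLP, fMM, fDH, eH, fA, fMU, eD, fSS,
      show (m + 1 + L) / ((m + 1) * L) * ((q y - J m y) / (1 - y)) =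
        ((m + 1 + L) / ((m + 1) * L) * (q y - J m y)) / (1 - y) by ring, eq_div_iff hd']
    unfold J q
    rw [← haa, hlm, fb]
    field_simp
    linear_combination (2 * (m + 1 + L) : ℝ) * ha
  have fVQ : vVQ = ((m + 1 + L) / ((m + 1) * L)) ^ 2 *
      ((m + 1) ^ 2 * (q y - J m y) / ((m + 7 / 4) ^ 4 * (1 - y))) := by
    rw [eVQ, eV, fNU, fKA, fSQJ, fSS]
    field_simp
  have fFM : vFM = ((m + 1 + L) / ((m + 1) * L)) ^ 2 * ((m + 1) ^ 2 * fm m y / (1 - y)) := by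
    rw [eFM, eOW, fVQ, fJM, fW]; unfold fm w1 w
    field_simp
    ring
  have fFMM : vFMM = ((m + 1 + L) / ((m + 1) * L)) ^ 2 *
      ((m + 1) ^ 2 * fmm m y / (1 - y)) := by
    rw [eFMM, eOW, fVQ, fJM, fJMM, fW, eN3, fNU, fMU]; unfold fmm w1 w2 w
    field_simp
    ring
  have fEM : vEM = (m + 1) * eps m := by
    rw [eEM, fMU]; unfold eps
    have h1 : (1 : ℝ) + 14 * (1 / (m + 1)) = (m + 15) / (m + 1) := by field_simp; ring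
    rw [h1, inv_div]; field_simp
  have fQ : vQ = ((m + 1 + L) / ((m + 1) * L)) ^ 2 *
      ((m + 1) ^ 2 * (fmm m y - (Real.log 2 + eps m) * fm m y) / (1 - y)) := by
    rw [eQ, eEL, fEM, fFMM, fFM, fMU]
    field_simp
    ring
  have fSP : vSP = (m + 1 + L) / ((m + 1) * L) * fy m y := by
    rw [eSP, eOW, fW, fSJ, fQY, fSS]; unfold fy; ring
  have fF : vF = (1 - y) * fyy m y * (m + 1 + L) ^ 2 / (m + 1) ^ 2 := by
    rw [eF, eOW, fW, fJYY, eY2, fY, fET]; unfold fyy qyy; ring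
  have fT : vT = (m + 1 + L) / ((m + 1) * L) *
      ((m + 1) * (fmy m y - eps m / 2 * fy m y)) := by
    rw [eT, eSFMY, eOW, fEM, fSP, fSMJ, fQY, fSJ, fW, eN3, fNU, fKA, fSS]
    unfold fmy w1 w
    field_simp
    ring
  obtain ⟨k1, k2, k3⟩ := hfin
  have r1 : 0 ≤ fyy m y := by
    rw [fF] at k1
    have h1 : (1 - y) * fyy m y * (m + 1 + L) ^ 2 / (m + 1) ^ 2 =
      ((1 - y) * (m + 1 + L) ^ 2 / (m + 1) ^ 2) * fyy m y := by ring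
    rw [h1] at k1
    exact nonneg_of_mul_nonneg_right k1 (by positivity)
  have r2 : 0 ≤ fmm m y - (Real.log 2 + eps m) * fm m y := by
    rw [fQ] at k2
    have h1 : ((m + 1 + L) / ((m + 1) * L)) ^ 2 *
      ((m + 1) ^ 2 * (fmm m y - (Real.log 2 + eps m) * fm m y) / (1 - y)) =
      (((m + 1 + L) / ((m + 1) * L)) ^ 2 * ((m + 1) ^ 2 / (1 - y))) *
        (fmm m y - (Real.log 2 + eps m) * fm m y) := by ring
    rw [h1] at k2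
    exact nonneg_of_mul_nonneg_right k2 (by positivity)
  refine fun z hz => quad_nonneg r1 r2 ?_ z hz
  rcases k3 with k3 | k3
  · left
    rw [fT] at k3
    have h1 : (m + 1 + L) / ((m + 1) * L) *
      ((m + 1) * (fmy m y - eps m / 2 * fy m y)) = ((m + 1 + L) / ((m + 1) * L) *
      (m + 1)) * (fmy m y - eps m / 2 * fy m y) := by ring
    rw [h1] at k3
    exact nonneg_of_mul_nonneg_right k3 (by positivity)
  · right
    rw [eWW, eB2, fTH, fF, fQ, fT] at k3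
    have h1 : ((m + 1) / (m + 1 + L)) ^ 2 * ((1 - y) * fyy m y * (m + 1 + L) ^ 2 / (m + 1) ^ 2 *
        (((m + 1 + L) / ((m + 1) * L)) ^ 2 *
          ((m + 1) ^ 2 * (fmm m y - (Real.log 2 + eps m) * fm m y) / (1 - y)))) -
        ((m + 1 + L) / ((m + 1) * L) * ((m + 1) * (fmy m y - eps m / 2 * fy m y))) ^ 2 =
        (((m + 1 + L) / ((m + 1) * L)) ^ 2 * (m + 1) ^ 2) *
          (fyy m y * (fmm m y - (Real.log 2 + eps m) * fm m y) -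
          (fmy m y - eps m / 2 * fy m y) ^ 2) := by
      field_simp
    rw [h1] at k3
    exact nonneg_of_mul_nonneg_right k3 (by positivity)

theorem boxT_sound {e1 e2 : ℝ} (he : Env e1 e2) {m y L : ℝ} (hm : 0 < m) (hy0 : 0 < y)
    (hy1 : y < 1) (hL : L = -(lm y)) (hL0 : 0 < L) {SS TH D H ET : AF}
    (hSS' : Enc e1 e2 (1 / (m + 1) + 1 / L) SS) (hTH' : Enc e1 e2 ((m + 1) * am m y) TH)
    (hD' : Enc e1 e2 (1 - y) D) (hH' : Enc e1 e2 ((1 - Pool.MP324.lp y) / (1 - y)) H)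
    (hET' : Enc e1 e2 ((1 - y) / ((m + 1) * am m y) ^ 2) ET)
    (h : boxT SS TH D H ET = true) : N1at m y := by
  have hcc : Enc e1 e2 Pool.MP324.cc AF.cc := enc_cc e1 e2
  obtain ⟨vSS, eSS, hSS⟩ : ∃ v, v = 1 / (m + 1) + 1 / L ∧ Enc e1 e2 v SS := ⟨_, rfl, hSS'⟩
  obtain ⟨vTH, eTH, hTH⟩ : ∃ v, v = (m + 1) * am m y ∧ Enc e1 e2 v TH := ⟨_, rfl, hTH'⟩
  obtain ⟨vD, eD, hD⟩ : ∃ v, v = 1 - y ∧ Enc e1 e2 v D := ⟨_, rfl, hD'⟩
  obtain ⟨vH, eH, hH⟩ : ∃ v, v = (1 - Pool.MP324.lp y) / (1 - y) ∧ Enc e1 e2 v H :=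
    ⟨_, rfl, hH'⟩
  obtain ⟨vET, eET, hET⟩ : ∃ v, v = (1 - y) / ((m + 1) * am m y) ^ 2 ∧ Enc e1 e2 v ET :=
    ⟨_, rfl, hET'⟩
  unfold boxT at h
  extract_lets LAM MU DH LP Y Y2 A MM KA NU N3 W OW PP IP A2 B2 S2 CM U1 U2 JYY F SJ Q1 QY SP PL JM JMM SQJ V VQ FM FMM EM EL Q GP V1 SMJ SFMY T WW at h
  obtain ⟨vLAM, eLAM, hLAM⟩ : ∃ v, v = (vTH * vSS) ∧ Enc e1 e2 v LAM :=
    ⟨_, rfl, Enc.congr (by first | (with_reducible rfl) | (push_cast; done) | (push_cast; ring)) (Enc.mul he hTH hSS)⟩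
  obtain ⟨vMU, eMU, hMU⟩ : ∃ v, v = (vSS - vLAM) ∧ Enc e1 e2 v MU :=
    ⟨_, rfl, Enc.congr (by first | (with_reducible rfl) | (push_cast; done) | (push_cast; ring)) (Enc.sub hSS hLAM)⟩
  obtain ⟨vDH, eDH, hDH⟩ : ∃ v, v = (vD * vH) ∧ Enc e1 e2 v DH :=
    ⟨_, rfl, Enc.congr (by first | (with_reducible rfl) | (push_cast; done) | (push_cast; ring)) (Enc.mul he hD hH)⟩
  obtain ⟨vLP, eLP, hLP⟩ : ∃ v, v = ((1 : ℝ) + -vDH) ∧ Enc e1 e2 v LP :=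
    ⟨_, rfl, Enc.congr (by first | (with_reducible rfl) | (push_cast; done) | (push_cast; ring)) (Enc.addi (1) (Enc.neg hDH))⟩
  obtain ⟨vY, eY, hY⟩ : ∃ v, v = ((1 : ℝ) + -vD) ∧ Enc e1 e2 v Y :=
    ⟨_, rfl, Enc.congr (by first | (with_reducible rfl) | (push_cast; done) | (push_cast; ring)) (Enc.addi (1) (Enc.neg hD))⟩
  obtain ⟨vY2, eY2, hY2⟩ : ∃ v, v = (vY ^ 2) ∧ Enc e1 e2 v Y2 :=
    ⟨_, rfl, Enc.congr (by first | (with_reducible rfl) | (push_cast; done) | (push_cast; ring)) (Enc.sq he hY)⟩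
  obtain ⟨vA, eA, hA⟩ : ∃ v, v = (((1 : ℝ) + -(vMU * vLP)))⁻¹ ∧ Enc e1 e2 v A :=
    ⟨_, rfl, Enc.congr (by first | (with_reducible rfl) | (push_cast; done) | (push_cast; ring)) (Enc.inv he (Enc.addi (1) (Enc.neg (Enc.mul he hMU hLP))))⟩
  obtain ⟨vMM, eMM, hMM⟩ : ∃ v, v = ((1 : ℝ) + -vMU) ∧ Enc e1 e2 v MM :=
    ⟨_, rfl, Enc.congr (by first | (with_reducible rfl) | (push_cast; done) | (push_cast; ring)) (Enc.addi (1) (Enc.neg hMU))⟩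
  obtain ⟨vKA, eKA, hKA⟩ : ∃ v, v = (((1 : ℝ) + (((3 : ℝ) * vMU) / 4)))⁻¹ ∧ Enc e1 e2 v KA :=
    ⟨_, rfl, Enc.congr (by first | (with_reducible rfl) | (push_cast; done) | (push_cast; ring)) (Enc.inv he (Enc.addi (1) (Enc.divn he (q := 4) (by norm_num) (Enc.smul (3) hMU))))⟩
  obtain ⟨vNU, eNU, hNU⟩ : ∃ v, v = (vMU * vKA) ∧ Enc e1 e2 v NU :=
    ⟨_, rfl, Enc.congr (by first | (with_reducible rfl) | (push_cast; done) | (push_cast; ring)) (Enc.mul he hMU hKA)⟩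
  obtain ⟨vN3, eN3, hN3⟩ : ∃ v, v = (vNU * (vNU ^ 2)) ∧ Enc e1 e2 v N3 :=
    ⟨_, rfl, Enc.congr (by first | (with_reducible rfl) | (push_cast; done) | (push_cast; ring)) (Enc.mul he hNU (Enc.sq he hNU))⟩
  obtain ⟨vW, eW, hW⟩ : ∃ v, v = (((33 : ℝ) * vN3) / 5) ∧ Enc e1 e2 v W :=
    ⟨_, rfl, Enc.congr (by first | (with_reducible rfl) | (push_cast; done) | (push_cast; ring)) (Enc.divn he (q := 5) (by norm_num) (Enc.smul (33) hN3))⟩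
  obtain ⟨vOW, eOW, hOW⟩ : ∃ v, v = ((1 : ℝ) + -vW) ∧ Enc e1 e2 v OW :=
    ⟨_, rfl, Enc.congr (by first | (with_reducible rfl) | (push_cast; done) | (push_cast; ring)) (Enc.addi (1) (Enc.neg hW))⟩
  obtain ⟨vPP, ePP, hPP⟩ : ∃ v, v = ((1 : ℝ) + -(vD / 2)) ∧ Enc e1 e2 v PP :=
    ⟨_, rfl, Enc.congr (by first | (with_reducible rfl) | (push_cast; done) | (push_cast; ring)) (Enc.addi (1) (Enc.neg (Enc.divn he (q := 2) (by norm_num) hD)))⟩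
  obtain ⟨vIP, eIP, hIP⟩ : ∃ v, v = (((2 : ℝ) + -vD))⁻¹ ∧ Enc e1 e2 v IP :=
    ⟨_, rfl, Enc.congr (by first | (with_reducible rfl) | (push_cast; done) | (push_cast; ring)) (Enc.inv he (Enc.addi (2) (Enc.neg hD)))⟩
  obtain ⟨vA2, eA2, hA2⟩ : ∃ v, v = (vA ^ 2) ∧ Enc e1 e2 v A2 :=
    ⟨_, rfl, Enc.congr (by first | (with_reducible rfl) | (push_cast; done) | (push_cast; ring)) (Enc.sq he hA)⟩
  obtain ⟨vB2, eB2, hB2⟩ : ∃ v, v = (vTH ^ 2) ∧ Enc e1 e2 v B2 :=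
    ⟨_, rfl, Enc.congr (by first | (with_reducible rfl) | (push_cast; done) | (push_cast; ring)) (Enc.sq he hTH)⟩
  obtain ⟨vS2, eS2, hS2⟩ : ∃ v, v = (vSS ^ 2) ∧ Enc e1 e2 v S2 :=
    ⟨_, rfl, Enc.congr (by first | (with_reducible rfl) | (push_cast; done) | (push_cast; ring)) (Enc.sq he hSS)⟩
  obtain ⟨vCM, eCM, hCM⟩ : ∃ v, v = ((2 : ℝ) * (vMU * cc)) ∧ Enc e1 e2 v CM :=
    ⟨_, rfl, Enc.congr (by first | (with_reducible rfl) | (push_cast; done) | (push_cast; ring)) (Enc.smul (2) (Enc.mul he hMU hcc))⟩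
  obtain ⟨vU1, eU1, hU1⟩ : ∃ v, v = ((vET * vA2) * (((1 : ℝ) + (vCM * vA)) * vIP)) ∧ Enc e1 e2 v U1 :=
    ⟨_, rfl, Enc.congr (by first | (with_reducible rfl) | (push_cast; done) | (push_cast; ring)) (Enc.mul he (Enc.mul he hET hA2) (Enc.mul he (Enc.addi (1) (Enc.mul he hCM hA)) hIP))⟩
  obtain ⟨vU2, eU2, hU2⟩ : ∃ v, v = ((1 : ℝ) + (vCM * vTH)) ∧ Enc e1 e2 v U2 :=
    ⟨_, rfl, Enc.congr (by first | (with_reducible rfl) | (push_cast; done) | (push_cast; ring)) (Enc.addi (1) (Enc.mul he hCM hTH))⟩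
  obtain ⟨vJYY, eJYY, hJYY⟩ : ∃ v, v = (((vMM * cc) * (vU1 + vU2)) / 2) ∧ Enc e1 e2 v JYY :=
    ⟨_, rfl, Enc.congr (by first | (with_reducible rfl) | (push_cast; done) | (push_cast; ring)) (Enc.divn he (q := 2) (by norm_num) (Enc.mul he (Enc.mul he hMM hcc) (Enc.add hU1 hU2)))⟩
  obtain ⟨vF, eF, hF⟩ : ∃ v, v = ((vOW * vJYY) + (vW * (vET * ((4 : ℝ) + ((-12 : ℝ) * vY2))))) ∧ Enc e1 e2 v F :=
    ⟨_, rfl, Enc.congr (by first | (with_reducible rfl) | (push_cast; done) | (push_cast; ring)) (Enc.add (Enc.mul he hOW hJYY) (Enc.mul he hW (Enc.mul he hET (Enc.addi (4) (Enc.smul (-12) hY2)))))⟩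
  obtain ⟨vSJ, eSJ, hSJ⟩ : ∃ v, v = ((vMM * ((1 : ℝ) + (vSS * ((vLP * vA) + (cc * (vA2 - vB2)))))) / 2) ∧ Enc e1 e2 v SJ :=
    ⟨_, rfl, Enc.congr (by first | (with_reducible rfl) | (push_cast; done) | (push_cast; ring)) (Enc.divn he (q := 2) (by norm_num) (Enc.mul he hMM (Enc.addi (1) (Enc.mul he hSS (Enc.add (Enc.mul he hLP hA) (Enc.mul he hcc (Enc.sub hA2 hB2)))))))⟩
  obtain ⟨vQ1, eQ1, hQ1⟩ : ∃ v, v = ((2 : ℝ) + -vD) ∧ Enc e1 e2 v Q1 :=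
    ⟨_, rfl, Enc.congr (by first | (with_reducible rfl) | (push_cast; done) | (push_cast; ring)) (Enc.addi (2) (Enc.neg hD))⟩
  obtain ⟨vQY, eQY, hQY⟩ : ∃ v, v = ((4 : ℝ) * (vY * (vD * vQ1))) ∧ Enc e1 e2 v QY :=
    ⟨_, rfl, Enc.congr (by first | (with_reducible rfl) | (push_cast; done) | (push_cast; ring)) (Enc.smul (4) (Enc.mul he hY (Enc.mul he hD hQ1)))⟩
  obtain ⟨vSP, eSP, hSP⟩ : ∃ v, v = ((vOW * vSJ) + (vSS * (vW * vQY))) ∧ Enc e1 e2 v SP :=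
    ⟨_, rfl, Enc.congr (by first | (with_reducible rfl) | (push_cast; done) | (push_cast; ring)) (Enc.add (Enc.mul he hOW hSJ) (Enc.mul he hSS (Enc.mul he hW hQY)))⟩
  obtain ⟨vPL, ePL, hPL⟩ : ∃ v, v = (vPP * (vLP * vH)) ∧ Enc e1 e2 v PL :=
    ⟨_, rfl, Enc.congr (by first | (with_reducible rfl) | (push_cast; done) | (push_cast; ring)) (Enc.mul he hPP (Enc.mul he hLP hH))⟩
  obtain ⟨vJM, eJM, hJM⟩ : ∃ v, v = ((vS2 * (vPL * vA2)) - (((1 : ℝ) + vLAM) / 2)) ∧ Enc e1 e2 v JM :=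
    ⟨_, rfl, Enc.congr (by first | (with_reducible rfl) | (push_cast; done) | (push_cast; ring)) (Enc.sub (Enc.mul he hS2 (Enc.mul he hPL hA2)) (Enc.divn he (q := 2) (by norm_num) (Enc.addi (1) hLAM)))⟩
  obtain ⟨vJMM, eJMM, hJMM⟩ : ∃ v, v = ((((1 : ℝ) + vLAM) * vTH) - ((2 : ℝ) * (vS2 * (vPL * (vA2 * vA))))) ∧ Enc e1 e2 v JMM :=
    ⟨_, rfl, Enc.congr (by first | (with_reducible rfl) | (push_cast; done) | (push_cast; ring)) (Enc.sub (Enc.mul he (Enc.addi (1) hLAM) hTH) (Enc.smul (2) (Enc.mul he hS2 (Enc.mul he hPL (Enc.mul he hA2 hA)))))⟩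
  obtain ⟨vSQJ, eSQJ, hSQJ⟩ : ∃ v, v = ((((vSS * (vA * ((1 : ℝ) + ((((2 : ℝ) * vH) - vDH) - (vMU * vLP))))) + vMM) / 2) - (vSS * (vD * (vQ1 ^ 2)))) ∧ Enc e1 e2 v SQJ :=
    ⟨_, rfl, Enc.congr (by first | (with_reducible rfl) | (push_cast; done) | (push_cast; ring)) (Enc.sub (Enc.divn he (q := 2) (by norm_num) (Enc.add (Enc.mul he hSS (Enc.mul he hA (Enc.addi (1) (Enc.sub (Enc.sub (Enc.smul (2) hH) hDH) (Enc.mul he hMU hLP))))) hMM)) (Enc.mul he hSS (Enc.mul he hD (Enc.sq he hQ1))))⟩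
  obtain ⟨vV, eV, hV⟩ : ∃ v, v = (vNU * vKA) ∧ Enc e1 e2 v V :=
    ⟨_, rfl, Enc.congr (by first | (with_reducible rfl) | (push_cast; done) | (push_cast; ring)) (Enc.mul he hNU hKA)⟩
  obtain ⟨vVQ, eVQ, hVQ⟩ : ∃ v, v = (vSS * ((vV ^ 2) * vSQJ)) ∧ Enc e1 e2 v VQ :=
    ⟨_, rfl, Enc.congr (by first | (with_reducible rfl) | (push_cast; done) | (push_cast; ring)) (Enc.mul he hSS (Enc.mul he (Enc.sq he hV) hSQJ))⟩
  obtain ⟨vFM, eFM, hFM⟩ : ∃ v, v = ((vOW * vJM) - (((99 : ℝ) * vVQ) / 5)) ∧ Enc e1 e2 v FM :=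
    ⟨_, rfl, Enc.congr (by first | (with_reducible rfl) | (push_cast; done) | (push_cast; ring)) (Enc.sub (Enc.mul he hOW hJM) (Enc.divn he (q := 5) (by norm_num) (Enc.smul (99) hVQ)))⟩
  obtain ⟨vFMM, eFMM, hFMM⟩ : ∃ v, v = (((vOW * (vMU * vJMM)) + (((198 : ℝ) * ((vN3 * vNU) * vJM)) / 5)) + (((396 : ℝ) * (vVQ * vNU)) / 5)) ∧ Enc e1 e2 v FMM :=
    ⟨_, rfl, Enc.congr (by first | (with_reducible rfl) | (push_cast; done) | (push_cast; ring)) (Enc.add (Enc.add (Enc.mul he hOW (Enc.mul he hMU hJMM)) (Enc.divn he (q := 5) (by norm_num) (Enc.smul (198) (Enc.mul he (Enc.mul he hN3 hNU) hJM)))) (Enc.divn he (q := 5) (by norm_num) (Enc.smul (396) (Enc.mul he hVQ hNU))))⟩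
  obtain ⟨vEM, eEM, hEM⟩ : ∃ v, v = ((1 : ℝ) + ((((1 : ℝ) + ((14 : ℝ) * vMU)))⁻¹ / 2)) ∧ Enc e1 e2 v EM :=
    ⟨_, rfl, Enc.congr (by first | (with_reducible rfl) | (push_cast; done) | (push_cast; ring)) (Enc.addi (1) (Enc.divn he (q := 2) (by norm_num) (Enc.inv he (Enc.addi (1) (Enc.smul (14) hMU)))))⟩
  obtain ⟨vEL, eEL, hEL⟩ : ∃ v, v = ((vMU * vEM) + Real.log 2) ∧ Enc e1 e2 v EL :=
    ⟨_, rfl, Enc.congr (by first | (with_reducible rfl) | (push_cast; done) | (push_cast; ring)) (Enc.add (Enc.mul he hMU hEM) (enc_ln2 e1 e2))⟩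
  obtain ⟨vQ, eQ, hQ⟩ : ∃ v, v = (vFMM - (vEL * vFM)) ∧ Enc e1 e2 v Q :=
    ⟨_, rfl, Enc.congr (by first | (with_reducible rfl) | (push_cast; done) | (push_cast; ring)) (Enc.sub hFMM (Enc.mul he hEL hFM))⟩
  obtain ⟨vGP, eGP, hGP⟩ : ∃ v, v = (vLP * vDH) ∧ Enc e1 e2 v GP :=
    ⟨_, rfl, Enc.congr (by first | (with_reducible rfl) | (push_cast; done) | (push_cast; ring)) (Enc.mul he hLP hDH)⟩
  obtain ⟨vV1, eV1, hV1⟩ : ∃ v, v = (vA2 * ((vGP + (cc * ((1 : ℝ) + ((-2 : ℝ) * vLP)))) + (vCM * (vGP * vA)))) ∧ Enc e1 e2 v V1 :=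
    ⟨_, rfl, Enc.congr (by first | (with_reducible rfl) | (push_cast; done) | (push_cast; ring)) (Enc.mul he hA2 (Enc.add (Enc.add hGP (Enc.mul he hcc (Enc.addi (1) (Enc.smul (-2) hLP)))) (Enc.mul he hCM (Enc.mul he hGP hA))))⟩
  obtain ⟨vSMJ, eSMJ, hSMJ⟩ : ∃ v, v = ((((vSS * (vMU * vV1)) + (((1 : ℝ) + -vTH) * (((1 : ℝ) + vLAM) * ((1 : ℝ) + (vCM * vTH))))) - ((vMU * cc) * ((vSS * vB2) + ((2 : ℝ) * vTH)))) / 2) ∧ Enc e1 e2 v SMJ :=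
    ⟨_, rfl, Enc.congr (by first | (with_reducible rfl) | (push_cast; done) | (push_cast; ring)) (Enc.divn he (q := 2) (by norm_num) (Enc.sub (Enc.add (Enc.mul he hSS (Enc.mul he hMU hV1)) (Enc.mul he (Enc.addi (1) (Enc.neg hTH)) (Enc.mul he (Enc.addi (1) hLAM) (Enc.addi (1) (Enc.mul he hCM hTH))))) (Enc.mul he (Enc.mul he hMU hcc) (Enc.add (Enc.mul he hSS hB2) (Enc.smul (2) hTH)))))⟩
  obtain ⟨vSFMY, eSFMY, hSFMY⟩ : ∃ v, v = ((vOW * vSMJ) - (((99 : ℝ) * ((vN3 * vKA) * ((vSS * vQY) - vSJ))) / 5)) ∧ Enc e1 e2 v SFMY :=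
    ⟨_, rfl, Enc.congr (by first | (with_reducible rfl) | (push_cast; done) | (push_cast; ring)) (Enc.sub (Enc.mul he hOW hSMJ) (Enc.divn he (q := 5) (by norm_num) (Enc.smul (99) (Enc.mul he (Enc.mul he hN3 hKA) (Enc.sub (Enc.mul he hSS hQY) hSJ)))))⟩
  obtain ⟨vT, eT, hT⟩ : ∃ v, v = (vSFMY - ((vEM * vSP) / 2)) ∧ Enc e1 e2 v T :=
    ⟨_, rfl, Enc.congr (by first | (with_reducible rfl) | (push_cast; done) | (push_cast; ring)) (Enc.sub hSFMY (Enc.divn he (q := 2) (by norm_num) (Enc.mul he hEM hSP)))⟩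
  obtain ⟨vWW, eWW, hWW⟩ : ∃ v, v = ((vB2 * (vF * vQ)) - (vT ^ 2)) ∧ Enc e1 e2 v WW :=
    ⟨_, rfl, Enc.congr (by first | (with_reducible rfl) | (push_cast; done) | (push_cast; ring)) (Enc.sub (Enc.mul he hB2 (Enc.mul he hF hQ)) (Enc.sq he hT))⟩
  have hfin := fin3_sound he hF hT hQ hWW h
  exact algT hm hy0 hy1 hL hL0 eSS eTH eD eH eET eLAM eMU eDH eLP eY eY2 eA eMM eKA eNU eN3 eW eOW ePP eIP eA2 eB2 eS2 eCM eU1 eU2 eJYY eF eSJ eQ1 eQY eSP ePL eJM eJMM eSQJ eV eVQ eFM eFMM eEM eEL eQ eGP eV1 eSMJ eSFMY eT eWW hfin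

end H76TL
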