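import Pool.Agent.H76.TL.Cov
import Pool.Agent.H76.TL.S3
import Pool.Agent.H77.TL.Stm2

set_option autoImplicit false

namespace H76TL

open Pool.MP324

lemma var1_enc {n n' : ℕ} (hn : n < n') {v : ℝ} (h1 : (n : ℝ) ≤ v * 16777216)
    (h2 : v * 16777216 ≤ n') : ∃ e : ℝ, |e| ≤ 1 ∧ ∀ e2 : ℝ, Enc e e2 v (var1 n n') := by
  have hn' : (0 : ℝ) < (n' : ℝ) - n := by
    have : (n : ℝ) < n' := by exact_mod_cast hn
    linarith
  refine ⟨(2 * (v * 16777216) - (n + n')) / (n' - n), ?_, ?_⟩
  · rw [abs_div, abs_of_pos hn', div_le_one hn', abs_le]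
    constructor <;> linarith
  · intro e2 _
    simp only [var1]
    push_cast
    have : v * 68719476736 - (((n : ℝ) + n') * 2048 + ((n' : ℝ) - n) * 2048 *
        ((2 * (v * 16777216) - (n + n')) / (n' - n)) + 0 * e2) = 0 := by
      field_simp
      ring
    rw [this, abs_zero]

lemma var2_enc {n n' : ℕ} (hn : n < n') {v : ℝ} (h1 : (n : ℝ) ≤ v * 16777216)
    (h2 : v * 16777216 ≤ n') : ∃ e : ℝ, |e| ≤ 1 ∧ ∀ e1 : ℝ, Enc e1 e v (var2 n n') := by
  have hn' : (0 : ℝ) < (n' : ℝ) - n := by
    have : (n : ℝ) < n' := by exact_mod_cast hn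
    linarith
  refine ⟨(2 * (v * 16777216) - (n + n')) / (n' - n), ?_, ?_⟩
  · rw [abs_div, abs_of_pos hn', div_le_one hn', abs_le]
    constructor <;> linarith
  · intro e1 _
    simp only [var2]
    push_cast
    have : v * 68719476736 - (((n : ℝ) + n') * 2048 + 0 * e1 + ((n' : ℝ) - n) * 2048 *
        ((2 * (v * 16777216) - (n + n')) / (n' - n))) = 0 := by
      field_simp
      ring
    rw [this, abs_zero]

/-- `y ≤ m` in the domain -/
lemma y_le_m {m y : ℝ} (hm : 0 < m) (hy1 : y < 1) (h : y ≤ (2 : ℝ) ^ m - 1) : y ≤ m := by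
  by_cases h1 : m ≤ 1
  · have := rpow_one_add_le_one_add_mul_self (s := 1) (by norm_num) hm.le h1
    norm_num at this
    linarith
  · push Not at h1; linarith

lemma mu_le {m y : ℝ} (hm : 0 < m) (hy0 : 0 < y) (hy1 : y < 1) (h : y ≤ (2 : ℝ) ^ m - 1) :
    1 / (m + 1) ≤ 1 / (1 + y) := by
  have := y_le_m hm hy1 h
  apply one_div_le_one_div_of_le <;> linarith

/-- the direct region -/
theorem n1_direct {m y : ℝ} (hm : 0 < m) (hy0 : 0 < y) (hy1 : y < 1)
    (h : y ≤ (2 : ℝ) ^ m - 1) (h1 : (16384 : ℝ) ≤ (1 - y) * 16777216)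
    (h2 : (1 - y) * 16777216 ≤ 81920) : N1at m y := by
  have hl := lastD_num
  obtain ⟨p, q, t, hpq, hc, hp, hq, hlast⟩ := stripsD_sound listD 16384 numD
    ((1 - y) * 16777216) (by exact_mod_cast h1) (by rw [hl]; exact_mod_cast h2)
    (by rw [hl]; norm_num)
  have hmu := mu_le hm hy0 hy1 h
  have hmu0 : 0 < 1 / (m + 1) := by positivity
  have hqlt : q < 33554432 := by
    by_contra hcon
    push Not at hcon
    rw [Nat.sub_eq_zero_of_le hcon] at hlast
    simp at hlast
  have hqR : (q : ℝ) < 33554432 := by exact_mod_cast hqlt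
  have hlastR : (281474976710656 : ℝ) ≤ (lastN 0 t : ℝ) * (33554432 - q) := by
    have : ((33554432 - q : ℕ) : ℝ) = 33554432 - (q : ℝ) := by
      rw [Nat.cast_sub hqlt.le]; norm_num
    rw [← this]; exact_mod_cast hlast
  have hmu2 : 1 / (m + 1) * 16777216 ≤ lastN 0 t := by
    have h3 : 1 / (1 + y) * 16777216 ≤ (lastN 0 t : ℝ) := by
      have h4 : (lastN 0 t : ℝ) * (33554432 - q) ≤ (lastN 0 t : ℝ) * ((1 + y) * 16777216) := by
        apply mul_le_mul_of_nonneg_left _ (by positivity)
        linarith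
      rw [one_div, inv_mul_le_iff₀ (by linarith)]
      nlinarith
    have : 1 / (m + 1) * 16777216 ≤ 1 / (1 + y) * 16777216 := by gcongr
    linarith
  obtain ⟨a, b, hab, hbox, ha, hb⟩ := cover_sound (bxD p q) t 0 hc (1 / (m + 1) * 16777216)
    (by push_cast; positivity) hmu2 (by
      push_cast
      refine lt_of_lt_of_le ?_ hmu2
      positivity)
  obtain ⟨e1, he1, hE1⟩ := var1_enc hab ha hb
  obtain ⟨e2, he2, hE2⟩ := var2_enc hpq hp hq
  exact boxD_sound ⟨he1, he2⟩ hm hy0 hy1 (hE1 e2) (hE2 e1) hbox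

/-- the tail region -/
theorem n1_tail {m y : ℝ} (hm : 0 < m) (hy0 : 0 < y) (hy1 : y < 1)
    (h : y ≤ (2 : ℝ) ^ m - 1) (h1 : (1 - y) * 1024 ≤ 1) : N1at m y := by
  set δ := 1 - y with hδ
  have hδ0 : 0 < δ := by linarith
  have hl2a := Real.log_two_gt_d9
  have hl2b := Real.log_two_lt_d9
  have hl2 : 0 < Real.log 2 := by positivity
  set L := -(lm y) with hL
  have hLlog : Real.log δ = -(L * Real.log 2) := by
    rw [hL]; unfold lm Real.logb
    field_simp
    rw [hδ]
  have hδexp : δ = Real.exp (-(L * Real.log 2)) := by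
    rw [← hLlog, Real.exp_log hδ0]
  have hL10 : 10 ≤ L := by
    have h3 : Real.log δ ≤ Real.log (1 / 1024) := by
      apply Real.log_le_log hδ0
      linarith
    have h4 : Real.log ((1 : ℝ) / 1024) = -(10 * Real.log 2) := by
      rw [show (1 : ℝ) / 1024 = (2 ^ 10)⁻¹ by norm_num, Real.log_inv, Real.log_pow]
      norm_num
    rw [hLlog, h4] at h3
    nlinarith
  have hL0 : 0 < L := by linarith
  have hmu := mu_le hm hy0 hy1 h
  have hmu0 : 0 < 1 / (m + 1) := by positivity
  have hmu1 : 1 / (m + 1) ≤ 1024 / 2047 := by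
    refine hmu.trans ?_
    rw [div_le_div_iff₀ (by linarith) (by norm_num)]
    linarith
  set μ := 1 / (m + 1) with hμ
  set s := μ + 1 / L with hs
  have hlam : 1 / L ≤ 1 / 10 := one_div_le_one_div_of_le (by norm_num) hL10
  have hlam0 : 0 < 1 / L := by positivity
  have hs0 : 0 < s := by positivity
  have hm1 : 0 < m + 1 := by linarith
  have hmL : 0 < m + 1 + L := by linarith
  set θ := (m + 1) * am m y with hθ
  have hθ' : θ = (m + 1) / (m + 1 + L) := by
    rw [hθ]; unfold am; rw [hL]; ring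
  have hθ0 : 0 < θ := by rw [hθ']; positivity
  have hθ1 : θ < 1 := by rw [hθ', div_lt_one hmL]; linarith
  have hθs : θ * s = 1 / L := by
    rw [hθ', hs, hμ]; field_simp; ring
  have hθs2 : (1 - θ) * s = μ := by
    have : (1 - θ) * s = s - θ * s := by ring
    rw [this, hθs, hs]; ring
  have hl := lastT_num
  obtain ⟨p, q, hh, t, hpq, hc, hp, hq, hlt, hhead, hlast⟩ := stripsT_sound listT 0 numT
    (s * 16777216) (by push_cast; positivity) (by
      rw [hl]; push_cast
      have : s ≤ 1024 / 2047 + 1 / 10 := by linarith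
      linarith) (by rw [hl]; norm_num)
  have hheadR : (hh : ℝ) ≤ θ * 16777216 := by
    rcases hhead with h0 | h0
    · rw [h0]; push_cast; positivity
    · by_contra hcon
      push Not at hcon
      have hlt2 : hh < 16777216 := by
        by_contra hc2
        push Not at hc2
        rw [Nat.sub_eq_zero_of_le hc2] at h0
        simp at h0
      have h5 : (8392708 * 16777216 : ℝ) ≤ (16777216 - (hh : ℝ)) * p := by
        have : ((16777216 - hh : ℕ) : ℝ) = 16777216 - (hh : ℝ) := by
          rw [Nat.cast_sub hlt2.le]; norm_num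
        rw [← this]; exact_mod_cast h0
      have h6 : (16777216 - (hh : ℝ)) * p ≤ (16777216 - (hh : ℝ)) * (s * 16777216) := by
        have : (0 : ℝ) ≤ 16777216 - (hh : ℝ) := by
          have : (hh : ℝ) < 16777216 := by exact_mod_cast hlt2
          linarith
        gcongr
      have h8 : (16777216 - (hh : ℝ)) * (s * 16777216) ≤
          (16777216 - θ * 16777216) * (s * 16777216) := by
        apply mul_le_mul_of_nonneg_right _ (by positivity)
        linarith
      have h9 : (16777216 - θ * 16777216) * (s * 16777216) = μ * 281474976710656 := by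
        rw [← hθs2]; ring
      have h10 : μ * 281474976710656 ≤ 1024 / 2047 * 281474976710656 := by gcongr
      have h11 : (1024 : ℝ) / 2047 * 281474976710656 < 8392708 * 16777216 := by norm_num
      linarith
  have hlastR : θ * 16777216 ≤ lastN hh t := by
    rcases hlast with h0 | h0
    · rw [h0]; push_cast; linarith
    · by_contra hcon
      push Not at hcon
      have h5 : (1677723 * 16777216 : ℝ) ≤ (lastN hh t : ℝ) * p := by exact_mod_cast h0
      have h6 : (lastN hh t : ℝ) * p ≤ (lastN hh t : ℝ) * (s * 16777216) := by gcongr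
      have h8 : (lastN hh t : ℝ) * (s * 16777216) ≤ (θ * 16777216) * (s * 16777216) := by
        apply mul_le_mul_of_nonneg_right hcon.le (by positivity)
      have h9 : (θ * 16777216) * (s * 16777216) = 1 / L * 281474976710656 := by
        rw [← hθs]; ring
      have h10 : 1 / L * 281474976710656 ≤ 1 / 10 * 281474976710656 := by gcongr
      have h11 : (1 : ℝ) / 10 * 281474976710656 < 1677723 * 16777216 := by norm_num
      linarith
  obtain ⟨a, b, hab, hbox, ha, hb⟩ := cover_sound (bxT p q) t hh hc (θ * 16777216)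
    hheadR hlastR (by exact_mod_cast hlt)
  obtain ⟨e1, he1, hE1⟩ := var1_enc hpq hp hq
  obtain ⟨e2, he2, hE2⟩ := var2_enc hab ha hb
  have hD : Enc e1 e2 (1 - y) cD := by
    intro _
    simp only [cD]
    push_cast
    rw [abs_le]; constructor <;> nlinarith
  have hH : Enc e1 e2 ((1 - Pool.MP324.lp y) / (1 - y)) cH := by
    have hx : (0 : ℝ) < 1 - δ / 2 := by linarith
    have k1 : Real.log (1 - δ / 2) ≤ -(δ / 2) := by
      have := Real.log_le_sub_one_of_pos hx
      linarith
    have k2 : -(δ / 2) / (1 - δ / 2) ≤ Real.log (1 - δ / 2) := by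
      have := Real.one_sub_inv_le_log_of_pos hx
      have h3 : 1 - (1 - δ / 2)⁻¹ = -(δ / 2) / (1 - δ / 2) := by
        rw [eq_div_iff hx.ne', sub_mul, inv_mul_cancel₀ hx.ne']
        ring
      linarith
    have k3 : (1 - Pool.MP324.lp y) = -(Real.log (1 - δ / 2)) / Real.log 2 := by
      have h3 : 1 - δ / 2 = (1 + y) / 2 := by rw [hδ]; ring
      rw [h3, Real.log_div (by linarith) (by norm_num)]
      unfold Pool.MP324.lp Real.logb
      field_simp
      ring
    have k4 : 0.72134 ≤ (1 - Pool.MP324.lp y) / δ := by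
      rw [k3, le_div_iff₀ hδ0, le_div_iff₀ hl2]
      nlinarith
    have k5 : (1 - Pool.MP324.lp y) / δ ≤ 0.72175 := by
      rw [k3, div_le_iff₀ hδ0, div_le_iff₀ hl2]
      have h4 : -(Real.log (1 - δ / 2)) ≤ (δ / 2) / (1 - δ / 2) := by
        have : -(δ / 2) / (1 - δ / 2) = -((δ / 2) / (1 - δ / 2)) := by ring
        linarith
      have h5 : (δ / 2) / (1 - δ / 2) ≤ δ * (0.50025) := by
        rw [div_le_iff₀ hx]
        have h6 : (0.5 : ℝ) ≤ 0.50025 * (1 - δ / 2) := by linarith
        have h7 := mul_le_mul_of_nonneg_left h6 hδ0.le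
        linarith
      have h8 : δ * 0.50025 ≤ 0.72175 * δ * Real.log 2 := by
        have h9 : (0.50025 : ℝ) ≤ 0.72175 * Real.log 2 := by linarith
        have h10 := mul_le_mul_of_nonneg_left h9 hδ0.le
        linarith
      linarith
    intro _
    simp only [cH]
    push_cast
    rw [← hδ] at *
    rw [abs_le]; constructor <;> nlinarith
  have hET : Enc e1 e2 ((1 - y) / ((m + 1) * am m y) ^ 2) cE := by
    rw [← hθ, ← hδ]
    have k0 : 0 ≤ δ / θ ^ 2 := by positivity
    have k1 : δ / θ ^ 2 ≤ 0.036 := by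
      have h3 : δ / θ ^ 2 = δ * (1 + μ * L) ^ 2 := by
        rw [hθ', hμ]; field_simp
      rw [h3]
      have h4 : (1 + μ * L) ^ 2 ≤ (1 + 1024 / 2047 * L) ^ 2 := by gcongr
      have h5 : (1 + 1024 / 2047 * L) ^ 2 ≤ 0.036 * Real.exp (L * Real.log 2) := by
        obtain ⟨u, hu⟩ : ∃ u, u = L - 10 := ⟨_, rfl⟩
        have hu0 : 0 ≤ u := by linarith
        have hLu : L = 10 + u := by linarith
        have h6 : Real.exp (L * Real.log 2) = 1024 * Real.exp (u * Real.log 2) := by
          rw [hLu, add_mul, Real.exp_add]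
          congr 1
          rw [show (10 : ℝ) * Real.log 2 = Real.log (2 ^ 10) by
            rw [Real.log_pow]; norm_num]
          rw [Real.exp_log (by norm_num)]
          norm_num
        have h7 : 1 + u * Real.log 2 + (u * Real.log 2) ^ 2 / 2 ≤
            Real.exp (u * Real.log 2) :=
          Real.quadratic_le_exp_of_nonneg (by positivity)
        have h8 : u * 0.693 ≤ u * Real.log 2 := by
          apply mul_le_mul_of_nonneg_left _ hu0; linarith
        have h9 : (u * 0.693) ^ 2 ≤ (u * Real.log 2) ^ 2 := by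
          apply pow_le_pow_left₀ (by positivity) h8
        rw [h6, hLu]
        nlinarith
      have h6 : δ * Real.exp (L * Real.log 2) = 1 := by
        rw [hδexp, ← Real.exp_add]; simp
      calc δ * (1 + μ * L) ^ 2 ≤ δ * (0.036 * Real.exp (L * Real.log 2)) := by
            apply mul_le_mul_of_nonneg_left _ hδ0.le
            linarith
        _ = 0.036 * (δ * Real.exp (L * Real.log 2)) := by ring
        _ = 0.036 := by rw [h6, mul_one]
    intro _
    simp only [cE]
    push_cast
    rw [abs_le]; constructor <;> nlinarith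
  exact boxT_sound ⟨he1, he2⟩ hm hy0 hy1 hL hL0 (hE1 e2) (hE2 e1) hD hH hET hbox

theorem N1E_proved : S_N1E := by
  intro m y z hm hy0 hy1 hy2 hz
  by_cases h : (1 - y) * 1024 ≤ 1
  · exact n1_tail hm (by linarith) hy1 hy2 h z hz
  · push Not at h
    exact n1_direct hm (by linarith) hy1 hy2 (by linarith) (by linarith) z hz

end H76TL
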