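import Pool.Agent.H76.TL.P3

set_option autoImplicit false

namespace H76TL

/-- consecutive cells of a list of break points -/
def cover (P : ℕ → ℕ → Bool) : ℕ → List ℕ → Bool
  | _, [] => true
  | a, b :: l => decide (a < b) && P a b && cover P b l

def lastN : ℕ → List ℕ → ℕ
  | a, [] => a
  | _, b :: l => lastN b l

lemma cover_sound (P : ℕ → ℕ → Bool) (l : List ℕ) :
    ∀ (a : ℕ), cover P a l = true → ∀ v : ℝ, (a : ℝ) ≤ v → v ≤ lastN a l →
      (a : ℝ) < lastN a l →
      ∃ p q : ℕ, p < q ∧ P p q = true ∧ (p : ℝ) ≤ v ∧ v ≤ q := by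
  induction l with
  | nil => intro a _ v _ _ h; simp [lastN] at h
  | cons b l ih =>
    intro a h v h1 h2 h3
    simp only [cover, Bool.and_eq_true, decide_eq_true_eq] at h
    obtain ⟨⟨hab, hp⟩, hc⟩ := h
    by_cases hv : v ≤ b
    · exact ⟨a, b, hab, hp, h1, hv⟩
    · push Not at hv
      have h2' : v ≤ (lastN b l : ℝ) := h2
      exact ih b hc v hv.le h2' (hv.trans_le h2')

/-- strips for the test in `(mu, delta)` -/
def stripsD : ℕ → List (ℕ × List ℕ) → Bool
  | _, [] => true
  | cur, (d1, l) :: rest => decide (cur < d1) && cover (bxD cur d1) 0 l &&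
      decide (281474976710656 ≤ lastN 0 l * (33554432 - d1)) && stripsD d1 rest

def lastS : ℕ → List (ℕ × List ℕ) → ℕ
  | a, [] => a
  | _, b :: l => lastS b.1 l

lemma stripsD_sound (l : List (ℕ × List ℕ)) :
    ∀ cur : ℕ, stripsD cur l = true → ∀ v : ℝ, (cur : ℝ) ≤ v → v ≤ lastS cur l →
      (cur : ℝ) < lastS cur l →
      ∃ p q : ℕ, ∃ t : List ℕ, p < q ∧ cover (bxD p q) 0 t = true ∧ (p : ℝ) ≤ v ∧ v ≤ q ∧
        281474976710656 ≤ lastN 0 t * (33554432 - q) := by
  induction l with
  | nil => intro a _ v _ _ h; simp [lastS] at h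
  | cons b l ih =>
    obtain ⟨b, t⟩ := b
    intro a h v h1 h2 h3
    simp only [stripsD, Bool.and_eq_true, decide_eq_true_eq] at h
    obtain ⟨⟨⟨hab, hp⟩, hq⟩, hc⟩ := h
    by_cases hv : v ≤ b
    · exact ⟨a, b, t, hab, hp, h1, hv, hq⟩
    · push Not at hv
      have h2' : v ≤ (lastS b l : ℝ) := h2
      exact ih b hc v hv.le h2' (hv.trans_le h2')

/-- strips for the test in `(s, th)` -/
def stripsT : ℕ → List (ℕ × ℕ × List ℕ) → Bool
  | _, [] => true
  | cur, (d1, h, l) :: rest => decide (cur < d1) && cover (bxT cur d1) h l && decide (h < lastN h l) &&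
      (decide (h = 0) || decide (8392708 * 16777216 ≤ (16777216 - h) * cur)) &&
      (decide (lastN h l = 16777216) || decide (1677723 * 16777216 ≤ lastN h l * cur)) &&
      stripsT d1 rest

def lastT : ℕ → List (ℕ × ℕ × List ℕ) → ℕ
  | a, [] => a
  | _, b :: l => lastT b.1 l

lemma stripsT_sound (l : List (ℕ × ℕ × List ℕ)) :
    ∀ cur : ℕ, stripsT cur l = true → ∀ v : ℝ, (cur : ℝ) ≤ v → v ≤ lastT cur l →
      (cur : ℝ) < lastT cur l →
      ∃ p q h : ℕ, ∃ t : List ℕ, p < q ∧ cover (bxT p q) h t = true ∧ (p : ℝ) ≤ v ∧ v ≤ q ∧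
        h < lastN h t ∧
        (h = 0 ∨ 8392708 * 16777216 ≤ (16777216 - h) * p) ∧
        (lastN h t = 16777216 ∨ 1677723 * 16777216 ≤ lastN h t * p) := by
  induction l with
  | nil => intro a _ v _ _ h; simp [lastT] at h
  | cons b l ih =>
    obtain ⟨b, hh, t⟩ := b
    intro a h v h1 h2 h3
    simp only [stripsT, Bool.and_eq_true, Bool.or_eq_true, decide_eq_true_eq] at h
    obtain ⟨⟨⟨⟨⟨hab, hp⟩, hlt⟩, hq⟩, hr⟩, hc⟩ := h
    by_cases hv : v ≤ b
    · exact ⟨a, b, hh, t, hab, hp, h1, hv, hlt, hq, hr⟩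
    · push Not at hv
      have h2' : v ≤ (lastT b l : ℝ) := h2
      exact ih b hc v hv.le h2' (hv.trans_le h2')

def listD : List (ℕ × List ℕ) :=
  [(27840, [344064, 745472, 1220608, 1777664, 2334720, 2994176, 3653632, 4313088, 5087232, 5861376, 6635520, 7110656, 7884800, 8395575]),
   (47296, [344064, 745472, 1220608, 1777664, 2334720, 2994176, 3653632, 4313088, 4972544, 5746688, 6520832, 7077888, 7553024, 8400450]),
   (80384, [344064, 745472, 1220608, 1777664, 2334720, 2891776, 3448832, 4108288, 4767744, 5427200, 6086656, 6746112, 7303168, 7778304, 8408754]),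
   (81920, [557056, 1216512, 1990656, 2899968, 3973120, 5234688, 6496256, 7569408, 8409140])]

def listT : List (ℕ × ℕ × List ℕ) :=
  [(1339392, 0, [2686976, 3416064, 5357568, 8519680, 12238848, 16777216]),
   (2678784, 0, [2285568, 3297280, 4947968, 7634944, 10797056, 14516224, 16777216]),
   (4018176, 0, [1650688, 2510848, 2834432, 3846144, 5496832, 7782400, 10507575]),
   (5107712, 0, [1650688, 2379776, 2908160, 4100096, 5500928, 7005050]),
   (5943296, 0, [1650688, 2379776, 3239936, 4431872, 5510789]),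
   (6778880, 0, [1400832, 2129920, 2510848, 3239936, 4251648, 4736012]),
   (7614464, 0, [1191936, 2052096, 2498560, 2732032, 3354624, 4152238]),
   (8282112, 0, [1400832, 2260992, 2789376, 3235840, 3696587]),
   (8949760, 0, [1400832, 2412544, 2940928, 3215360, 3398593]),
   (9449472, 1043456, [2445312, 3145059]),
   (9949184, 1875968, [2978741]),
   (10070431, 2624512, [2829129])]

theorem numD : stripsD 16384 listD = true := by decide +kernel

theorem numT : stripsT 0 listT = true := by decide +kernel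

theorem lastD_num : lastS 16384 listD = 81920 := by decide +kernel

theorem lastT_num : lastT 0 listT = 10070431 := by decide +kernel

end H76TL
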