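import Pool.Agent.H76.TL.Tool

set_option autoImplicit false

namespace H76TL

namespace AF

/-- partial sums of `∑ A^l / (d (i + l) + 1)` -/
def hser (d : Nat) (A : AF) : Nat → Nat → AF
  | 0, i => rat 1 (d * i + 1)
  | j + 1, i => (rat 1 (d * i + 1)).add (A.mul (hser d A j (i + 1)))

/-- enlarge the radius -/
def wid (A : AF) (k : Nat) : AF := ⟨A.c, A.x, A.y, A.r + k, A.ok⟩

/-- `log 2` -/
def ln2 : AF := ⟨47632711549, 0, 0, 18, true⟩

/-- `1 / log 2` -/
def cc : AF := ⟨99141248293, 0, 0, 64, true⟩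

/-- `log (c / 2^36)` for an integer `c > 0` -/
def lnc (c : Nat) : AF :=
  (ln2.smul ((c.log2 : Int) - 36)).add
    ((((rat ((c : Int) - 2 ^ c.log2) (c + 2 ^ c.log2)).mul
      (hser 2 (rat ((c : Int) - 2 ^ c.log2) (c + 2 ^ c.log2)).sq 11 0)).smul 2).wid 1)

/-- half of the quadratic term of the logarithm -/
def qln (A : AF) : Nat :=
  (68719476736 * (A.t * A.t)) / (2 * A.c.natAbs * A.lo.natAbs) / 2 + 1

def ln (A : AF) : AF :=
  (lnc A.c.natAbs).add
    ⟨-(A.qln : Int), A.x * 68719476736 / A.c, A.y * 68719476736 / A.c,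
      A.r * 68719476736 / A.c.natAbs + 3 + A.qln, A.ok && decide (0 < A.lo)⟩

end AF

/-- real partial sums -/
noncomputable def rser (d : ℕ) (v : ℝ) : ℕ → ℕ → ℝ
  | 0, i => 1 / ((d * i + 1 : ℕ) : ℝ)
  | j + 1, i => 1 / ((d * i + 1 : ℕ) : ℝ) + v * rser d v j (i + 1)

lemma Enc.wid {e1 e2 v : ℝ} {A : AF} (ha : Enc e1 e2 v A) (k : ℕ) {w : ℝ}
    (hw : |w - v| * 68719476736 ≤ k) : Enc e1 e2 w (A.wid k) := by
  intro ho
  simp only [AF.wid] at ho ⊢
  have h1 := ha ho
  push_cast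
  have h2 : |(w - v) * 68719476736| ≤ k := by
    rw [abs_mul, abs_of_pos (show (0 : ℝ) < 68719476736 by norm_num)]; exact hw
  calc _ = |(v * 68719476736 - ((A.c : ℝ) + (A.x : ℝ) * e1 + (A.y : ℝ) * e2)) +
        (w - v) * 68719476736| := by
        congr 1; ring
    _ ≤ _ := (abs_add_le _ _).trans (add_le_add h1 h2)

lemma Enc.hser {e1 e2 v : ℝ} {A : AF} (he : Env e1 e2) (ha : Enc e1 e2 v A) (d : ℕ) (j : ℕ) :
    ∀ i : ℕ, Enc e1 e2 (rser d v j i) (A.hser d j i) := by
  induction j with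
  | zero =>
    intro i
    have h := enc_rat e1 e2 1 (q := d * i + 1) (Nat.succ_pos _)
    simpa [rser, AF.hser] using h
  | succ j ih =>
    intro i
    have h := enc_rat e1 e2 1 (q := d * i + 1) (Nat.succ_pos _)
    have h2 := h.add (ha.mul he (ih (i + 1)))
    simpa [rser, AF.hser] using h2

lemma rser_eq (d : ℕ) (v : ℝ) (j : ℕ) : ∀ i : ℕ,
    rser d v j i = ∑ l ∈ Finset.range (j + 1), v ^ l / ((d * (i + l) + 1 : ℕ) : ℝ) := by
  induction j with
  | zero => intro i; simp [rser]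
  | succ j ih =>
    intro i
    rw [rser, ih (i + 1), Finset.sum_range_succ' _ (j + 1), Finset.mul_sum, add_comm]
    have h : ∀ l ∈ Finset.range (j + 1), v * (v ^ l / ((d * (i + 1 + l) + 1 : ℕ) : ℝ)) =
        v ^ (l + 1) / ((d * (i + (l + 1)) + 1 : ℕ) : ℝ) := by
      intro l _
      rw [show i + 1 + l = i + (l + 1) by ring, pow_succ]
      ring
    rw [Finset.sum_congr rfl h]
    simp

lemma enc_ln2 (e1 e2 : ℝ) : Enc e1 e2 (Real.log 2) AF.ln2 := by
  intro _
  simp only [AF.ln2]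
  have h1 := Real.log_two_gt_d9
  have h2 := Real.log_two_lt_d9
  push_cast
  rw [abs_le]; constructor <;> nlinarith

lemma enc_cc (e1 e2 : ℝ) : Enc e1 e2 (1 / Real.log 2) AF.cc := by
  intro _
  simp only [AF.cc]
  have h1 := Real.log_two_gt_d9
  have h2 := Real.log_two_lt_d9
  have h0 : 0 < Real.log 2 := by positivity
  push_cast
  have h3 : 1 / Real.log 2 ≤ 1.4426950417 := by
    rw [div_le_iff₀ h0]; nlinarith
  have h4 : 1.4426950399 ≤ 1 / Real.log 2 := by
    rw [le_div_iff₀ h0]; nlinarith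
  rw [abs_le]; constructor <;> nlinarith

lemma enc_lnc (e1 e2 : ℝ) (he : Env e1 e2) {c : ℕ} (hc : 0 < c) :
    Enc e1 e2 (Real.log ((c : ℝ) / 68719476736)) (AF.lnc c) := by
  set k := c.log2 with hk
  have hk1 : 2 ^ k ≤ c := Nat.log2_self_le hc.ne'
  have hk2 : c < 2 ^ (k + 1) := Nat.lt_log2_self
  have hk1' : (2 : ℝ) ^ k ≤ c := by exact_mod_cast hk1
  have hk2' : (c : ℝ) < 2 * 2 ^ k := by
    have : (c : ℝ) < 2 ^ (k + 1) := by exact_mod_cast hk2
    rw [pow_succ] at this; linarith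
  have hp : (0 : ℝ) < 2 ^ k := by positivity
  set z : ℝ := ((c : ℝ) - 2 ^ k) / ((c : ℝ) + 2 ^ k) with hz
  have hz0 : 0 ≤ z := by
    apply div_nonneg <;> linarith
  have hz1 : z ≤ 1 / 3 := by
    rw [hz, div_le_iff₀ (by positivity)]; linarith
  have hzr : Enc e1 e2 z (AF.rat ((c : Int) - 2 ^ k) (c + 2 ^ k)) := by
    have h := enc_rat e1 e2 ((c : Int) - 2 ^ k) (q := c + 2 ^ k) (by positivity)
    push_cast at h
    exact h
  have hlow := Real.sum_range_le_log_div hz0 (by linarith) 12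
  have hupp := Real.log_div_le_sum_range_add hz0 (by linarith) 12
  have hsum : (∑ i ∈ Finset.range 12, z ^ (2 * i + 1) / (2 * i + 1)) =
      z * rser 2 (z ^ 2) 11 0 := by
    rw [rser_eq, Finset.mul_sum]
    apply Finset.sum_congr rfl
    intro l _
    push_cast
    rw [← pow_mul]
    ring
  rw [hsum] at hlow hupp
  have hrem : z ^ (2 * 12 + 1) / (1 - z ^ 2) ≤ 1 / 137438953472 := by
    have h1 : z ^ 2 ≤ 1 / 9 := by nlinarith
    have h2 : z ^ (2 * 12 + 1) ≤ (1 / 3) ^ 25 := by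
      apply pow_le_pow_left₀ hz0 hz1
    rw [div_le_iff₀ (by linarith)]
    have h3 : ((1 : ℝ) / 3) ^ 25 ≤ 1 / 137438953472 * (8 / 9) := by norm_num
    nlinarith
  have hz2 : Enc e1 e2 (z ^ 2) (AF.rat ((c : Int) - 2 ^ k) (c + 2 ^ k)).sq := hzr.sq he
  have h5 := (hzr.mul he (hz2.hser he 2 11 0)).smul 2
  have h6 : Enc e1 e2 (Real.log ((1 + z) / (1 - z)))
      ((((AF.rat ((c : Int) - 2 ^ k) (c + 2 ^ k)).mul
      (AF.hser 2 (AF.rat ((c : Int) - 2 ^ k) (c + 2 ^ k)).sq 11 0)).smul 2).wid 1) := by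
    refine Enc.wid h5 1 ?_
    rw [Nat.cast_one, show (((2 : Int) : ℝ)) = 2 by norm_num]
    have : |Real.log ((1 + z) / (1 - z)) - 2 * (z * rser 2 (z ^ 2) 11 0)| ≤
        2 * (1 / 137438953472) := by
      rw [abs_le]; constructor <;> linarith
    refine (mul_le_mul_of_nonneg_right this (by norm_num)).trans ?_
    norm_num
  have h7 := ((enc_ln2 e1 e2).smul ((k : Int) - 36)).add h6
  have h8 : Real.log ((c : ℝ) / 68719476736) =
      (((k : Int) - 36 : Int) : ℝ) * Real.log 2 + Real.log ((1 + z) / (1 - z)) := by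
    have h9 : (1 + z) / (1 - z) = (c : ℝ) / 2 ^ k := by
      rw [hz]
      have hq : (c : ℝ) + 2 ^ k ≠ 0 := by positivity
      have hq2 : (2 : ℝ) ^ k ≠ 0 := by positivity
      rw [div_eq_div_iff _ hq2]
      · field_simp; ring
      · intro h0
        field_simp at h0
        have : (2 : ℝ) ^ k = 0 := by linarith
        exact hq2 this
    have hc' : (c : ℝ) ≠ 0 := by exact_mod_cast hc.ne'
    rw [h9, Real.log_div hc' (by norm_num), Real.log_div hc' (by positivity), Real.log_pow,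
      show (68719476736 : ℝ) = 2 ^ 36 by norm_num, Real.log_pow]
    push_cast
    ring
  rw [h8]
  unfold AF.lnc
  rw [← hk]
  exact h7

lemma log_one_add_bounds {u τ : ℝ} (hu : |u| ≤ τ) (hτ : τ < 1) :
    u - τ ^ 2 / (2 * (1 - τ)) ≤ Real.log (1 + u) ∧ Real.log (1 + u) ≤ u := by
  have hu' := abs_le.1 hu
  have h1 : 0 < 1 + u := by linarith
  have hτ0 : 0 ≤ τ := (abs_nonneg u).trans hu
  refine ⟨?_, by linarith [Real.log_le_sub_one_of_pos h1]⟩
  rcases le_total 0 u with h | h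
  · have h2 := Real.le_log_one_add_of_nonneg h
    have h3 : u - u ^ 2 / 2 ≤ 2 * u / (u + 2) := by
      rw [le_div_iff₀ (by linarith)]
      nlinarith [mul_nonneg h (sq_nonneg u)]
    have h4 : u ^ 2 / 2 ≤ τ ^ 2 / (2 * (1 - τ)) := by
      rw [le_div_iff₀ (by linarith)]
      have : u ^ 2 ≤ τ ^ 2 := by nlinarith
      nlinarith [sq_nonneg u, mul_nonneg (sq_nonneg u) hτ0]
    linarith
  · set x := -u with hx
    have hx0 : 0 ≤ x := by linarith
    have hx1 : x ≤ τ := by linarith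
    have hxa : |x| < 1 := by rw [abs_of_nonneg hx0]; linarith
    have hs := Real.hasSum_pow_div_log_of_abs_lt_one hxa
    have hg : HasSum (fun i : ℕ => x ^ (i + 1) / 2 + if i = 0 then x / 2 else 0)
        (x * (1 - x)⁻¹ / 2 + x / 2) := by
      apply HasSum.add
      · have := ((hasSum_geometric_of_lt_one hx0 (by linarith)).mul_left x).div_const 2
        simpa [pow_succ, mul_comm] using this
      · exact hasSum_ite_eq 0 (x / 2)
    have hle : -Real.log (1 - x) ≤ x * (1 - x)⁻¹ / 2 + x / 2 := by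
      refine hasSum_le ?_ hs hg
      intro i
      rcases i with _ | i
      · simp
      · simp only [Nat.succ_ne_zero, if_false, add_zero]
        have : (0 : ℝ) ≤ x ^ (i + 1 + 1) := by positivity
        apply div_le_div_of_nonneg_left this (by norm_num)
        push_cast
        have : (0 : ℝ) ≤ i := by positivity
        linarith
    have h5 : x * (1 - x)⁻¹ / 2 + x / 2 = x + x ^ 2 / (2 * (1 - x)) := by
      have : 1 - x ≠ 0 := by linarith
      field_simp
      ring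
    have h6 : x ^ 2 / (2 * (1 - x)) ≤ τ ^ 2 / (2 * (1 - τ)) := by
      apply div_le_div₀ (by positivity) (by nlinarith) (by linarith) (by linarith)
    have h7 : 1 + u = 1 - x := by rw [hx]; ring
    rw [h7]
    linarith

lemma Enc.ln {e1 e2 v : ℝ} {A : AF} (he : Env e1 e2) (ha : Enc e1 e2 v A) :
    Enc e1 e2 (Real.log v) A.ln := by
  intro ho0
  have ho : A.ok = true ∧ 0 < A.lo := by
    simp only [AF.ln, AF.add, Bool.and_eq_true, decide_eq_true_eq] at ho0
    exact ho0.2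
  obtain ⟨ho, hlo⟩ := ho
  have hvpos := ha.pos he ho hlo
  obtain ⟨ρ, hρ, hv⟩ := ha.split ho
  have hl := lin_le he A
  have hloR0 : ((A.lo : Int) : ℝ) = (A.c : ℝ) - (A.n + A.r) := by
    unfold AF.lo AF.t
    push_cast
    ring
  have hlo' : (0 : ℝ) < (A.c : ℝ) - (A.n + A.r) := by
    rw [← hloR0]; exact_mod_cast hlo
  have hn0 : (0 : ℝ) ≤ (A.n : ℝ) := by positivity
  have hr0 : (0 : ℝ) ≤ (A.r : ℝ) := by positivity
  have hcpos : (0 : ℝ) < A.c := by linarith
  have hcI : (0 : Int) < A.c := by exact_mod_cast hcpos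
  have hca : 0 < A.c.natAbs := Int.natAbs_pos.2 hcI.ne'
  have hla : 0 < A.lo.natAbs := Int.natAbs_pos.2 hlo.ne'
  have hcc : ((A.c.natAbs : ℕ) : ℝ) = A.c := by rw [natAbs_cast, abs_of_pos hcpos]
  have e0 := enc_lnc e1 e2 he hca
  rw [hcc] at e0
  set u : ℝ := (((A.x : ℝ) * e1 + (A.y : ℝ) * e2) + ρ) / A.c with hu
  set τ : ℝ := ((A.n : ℝ) + A.r) / A.c with hτ
  have hl' : |((A.x : ℝ) * e1 + (A.y : ℝ) * e2) + ρ| ≤ (A.n : ℝ) + A.r :=
    (abs_add_le _ _).trans (add_le_add hl hρ)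
  have huτ : |u| ≤ τ := by
    rw [hu, hτ, abs_div, abs_of_pos hcpos]; gcongr
  have hτ1 : τ < 1 := by rw [hτ, div_lt_one hcpos]; linarith
  obtain ⟨b1, b2⟩ := log_one_add_bounds huτ hτ1
  have e_x := fdiv_err (A.x * 68719476736) hcI
  have e_y := fdiv_err (A.y * 68719476736) hcI
  have e_r := ndiv_le (A.r * 68719476736) (b := A.c.natAbs) hca
  have e_m := ndiv_le (68719476736 * (A.t * A.t)) (b := 2 * A.c.natAbs * A.lo.natAbs)
    (by positivity)
  have hq : τ ^ 2 / (2 * (1 - τ)) * 68719476736 ≤ 2 * (A.qln : ℝ) := by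
    unfold AF.qln
    push_cast [natAbs_cast] at e_m ⊢
    rw [hloR0, abs_of_pos hcpos, abs_of_pos hlo'] at e_m
    unfold AF.t at e_m ⊢
    push_cast at e_m
    set M1 : ℕ := 68719476736 * ((A.n + A.r) * (A.n + A.r)) /
      (2 * A.c.natAbs * A.lo.natAbs)
    have h3 : (M1 : ℝ) + 1 ≤ 2 * (((M1 / 2 : ℕ) : ℝ) + 1) := by
      have : M1 + 1 ≤ 2 * (M1 / 2 + 1) := by omega
      exact_mod_cast this
    have h4 : τ ^ 2 / (2 * (1 - τ)) * 68719476736 =
        68719476736 * (((A.n : ℝ) + A.r) * (A.n + A.r)) / (2 * A.c * (A.c - (A.n + A.r))) := by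
      rw [hτ]
      have h5 : (A.c : ℝ) - (A.n + A.r) ≠ 0 := hlo'.ne'
      have h6 : 1 - ((A.n : ℝ) + A.r) / A.c = (A.c - (A.n + A.r)) / A.c := by
        field_simp
      rw [h6]
      field_simp
    rw [h4]
    linarith
  have hrest : Enc e1 e2 (Real.log (1 + u)) ⟨-(A.qln : Int), A.x * 68719476736 / A.c,
      A.y * 68719476736 / A.c, A.r * 68719476736 / A.c.natAbs + 3 + A.qln,
      A.ok && decide (0 < A.lo)⟩ := by
    intro _
    push_cast [natAbs_cast] at e_x e_y e_r ⊢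
    rw [abs_of_pos hcpos] at e_r
    set x' : ℝ := ((A.x * 68719476736 / A.c : Int) : ℝ)
    set y' : ℝ := ((A.y * 68719476736 / A.c : Int) : ℝ)
    obtain ⟨h1, h2⟩ := he
    have hx : |(x' - (A.x * 68719476736) / A.c) * e1| ≤ 1 := by
      rw [abs_mul]
      nlinarith [abs_nonneg (x' - (A.x * 68719476736) / A.c), abs_nonneg e1]
    have hy : |(y' - (A.y * 68719476736) / A.c) * e2| ≤ 1 := by
      rw [abs_mul]
      nlinarith [abs_nonneg (y' - (A.y * 68719476736) / A.c), abs_nonneg e2]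
    have hR : |68719476736 * ρ / A.c| ≤ A.r * 68719476736 / A.c := by
      rw [abs_div, abs_mul, abs_of_pos hcpos,
        abs_of_pos (show (0 : ℝ) < 68719476736 by norm_num), mul_comm]
      gcongr
    have hid : Real.log (1 + u) * 68719476736 - (-(A.qln : ℝ) + x' * e1 + y' * e2) =
        ((Real.log (1 + u) - u) * 68719476736 + A.qln) + 68719476736 * ρ / A.c
        - (x' - (A.x * 68719476736) / A.c) * e1
        - (y' - (A.y * 68719476736) / A.c) * e2 := by
      have : u * 68719476736 = 68719476736 * ρ / A.c + (A.x * 68719476736) / A.c * e1 +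
          (A.y * 68719476736) / A.c * e2 := by
        rw [hu]; ring
      linear_combination this
    rw [hid]
    rw [abs_le] at hx hy hR ⊢
    constructor <;> nlinarith [hx.1, hx.2, hy.1, hy.2, hR.1, hR.2]
  have hfin : Real.log v = Real.log ((A.c : ℝ) / 68719476736) + Real.log (1 + u) := by
    have h1u : 0 < 1 + u := by
      have := (abs_le.1 huτ).1
      linarith
    rw [← Real.log_mul (by positivity) h1u.ne']
    congr 1
    rw [hu]
    field_simp
    linarith
  rw [hfin]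
  exact e0.add hrest ho0

end H76TL
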