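import Pool.Agent.H76.TL.Log

set_option autoImplicit false

namespace H76TL

/-- the variable on `[n/2^24, n'/2^24]` with noise `e1` -/
def var1 (n n' : Nat) : AF := ⟨((n + n' : Nat) : Int) * 2048, ((n' : Int) - n) * 2048, 0, 0, true⟩
/-- the variable on `[n/2^24, n'/2^24]` with noise `e2` -/
def var2 (n n' : Nat) : AF := ⟨((n + n' : Nat) : Int) * 2048, 0, ((n' : Int) - n) * 2048, 0, true⟩

/-- final test -/
def fin3 (F T Q W : AF) : Bool :=
  F.ok && T.ok && Q.ok && W.ok && decide (0 ≤ F.lo) && decide (0 ≤ Q.lo) &&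
    (decide (0 ≤ T.lo) || decide (0 ≤ W.lo))

/-- box test in the variables `mu`, `delta = 1 - y` -/
def boxD (MU D : AF) : Bool :=
  let LN := D.ln
  let LO := (LN.mul AF.cc).neg
  let LH := ((D.divn 2).neg.addi (1)).ln
  let LQ := (LH.mul AF.cc)
  let LP := (LQ.addi (1))
  let DH := LQ.neg
  let H := (DH.mul D.inv)
  let Y := (D.neg.addi (1))
  let Y2 := Y.sq
  let A := ((MU.mul LP).neg.addi (1)).inv
  let B := ((MU.mul LO).addi (1)).inv
  let MM := (MU.neg.addi (1))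
  let KA := (((MU.smul (3)).divn 4).addi (1)).inv
  let NU := (MU.mul KA)
  let N3 := (NU.mul NU.sq)
  let W := ((N3.smul (33)).divn 5)
  let OW := (W.neg.addi (1))
  let PP := ((D.divn 2).neg.addi (1))
  let IP := (D.neg.addi (2)).inv
  let A2 := A.sq
  let B2 := B.sq
  let CM := ((MU.mul AF.cc).smul (2))
  let U1 := ((D.mul A2).mul (((CM.mul A).addi (1)).mul IP))
  let U2 := (B2.mul ((CM.mul B).addi (1)))
  let JYY := (((MM.mul AF.cc).mul (U1.add U2)).divn 2)
  let F := ((OW.mul JYY).add (W.mul (D.mul ((Y2.smul (-12)).addi (4)))))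
  let JY := ((MM.mul (((LP.mul A).add (LO.mul B)).add (AF.cc.mul (A2.sub B2)))).divn 2)
  let Q1 := (D.neg.addi (2))
  let QY := ((Y.mul (D.mul Q1)).smul (4))
  let P := ((OW.mul JY).add (W.mul QY))
  let LL := (LO.mul (LO.addi (1)))
  let PL := (PP.mul (LP.mul H))
  let JM := ((PL.mul A2).sub ((LL.mul B2).divn 2))
  let JMM := ((LL.mul (B2.mul B)).sub ((PL.mul (A2.mul A)).smul (2)))
  let OJ := (((A.mul ((((H.smul (2)).sub (D.mul H)).sub (MU.mul LP)).addi (1))).add (MM.mul (LO.mul B))).divn 2)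
  let QJ := (OJ.sub (D.mul Q1.sq))
  let V := (NU.mul KA)
  let VQ := (V.sq.mul QJ)
  let FM := ((OW.mul JM).sub ((VQ.smul (99)).divn 5))
  let FMM := (((OW.mul (MU.mul JMM)).add ((((N3.mul NU).mul JM).smul (198)).divn 5)).add (((VQ.mul NU).smul (396)).divn 5))
  let EM := ((((MU.smul (14)).addi (1)).inv.divn 2).addi (1))
  let EL := ((MU.mul EM).add AF.ln2)
  let Q := (FMM.sub (EL.mul FM))
  let GP := (LP.mul DH)
  let V1 := (A2.mul ((GP.add (AF.cc.mul ((LP.smul (-2)).addi (1)))).add (CM.mul (GP.mul A))))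
  let V3 := (B2.mul ((LL.sub (AF.cc.mul ((LO.smul (2)).addi (1)))).add (CM.mul (LL.mul B))))
  let JMY := ((V1.add V3).divn 2)
  let FMY := ((OW.mul (MU.mul JMY)).sub ((((N3.mul KA).mul (QY.sub JY)).smul (99)).divn 5))
  let T := (FMY.sub ((EM.mul P).divn 2))
  let WW := ((F.mul Q).sub T.sq)
  fin3 F T Q WW

def bxD (d0 d1 n0 n1 : Nat) : Bool := boxD (var1 n0 n1) (var2 d0 d1)

end H76TL
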