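import Pool.Agent.H76.TL.P2

set_option autoImplicit false

namespace H76TL

/-- box test near `y = 1` in the variables `s = mu + 1/L`, `th = 1/(1 + mu L)` -/
def boxT (SS TH D H ET : AF) : Bool :=
  let LAM := (TH.mul SS)
  let MU := (SS.sub LAM)
  let DH := (D.mul H)
  let LP := (DH.neg.addi (1))
  let Y := (D.neg.addi (1))
  let Y2 := Y.sq
  let A := ((MU.mul LP).neg.addi (1)).inv
  let MM := (MU.neg.addi (1))
  let KA := (((MU.smul (3)).divn 4).addi (1)).inv
  let NU := (MU.mul KA)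
  let N3 := (NU.mul NU.sq)
  let W := ((N3.smul (33)).divn 5)
  let OW := (W.neg.addi (1))
  let PP := ((D.divn 2).neg.addi (1))
  let IP := (D.neg.addi (2)).inv
  let A2 := A.sq
  let B2 := TH.sq
  let S2 := SS.sq
  let CM := ((MU.mul AF.cc).smul (2))
  let U1 := ((ET.mul A2).mul (((CM.mul A).addi (1)).mul IP))
  let U2 := ((CM.mul TH).addi (1))
  let JYY := (((MM.mul AF.cc).mul (U1.add U2)).divn 2)
  let F := ((OW.mul JYY).add (W.mul (ET.mul ((Y2.smul (-12)).addi (4)))))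
  let SJ := ((MM.mul ((SS.mul ((LP.mul A).add (AF.cc.mul (A2.sub B2)))).addi (1))).divn 2)
  let Q1 := (D.neg.addi (2))
  let QY := ((Y.mul (D.mul Q1)).smul (4))
  let SP := ((OW.mul SJ).add (SS.mul (W.mul QY)))
  let PL := (PP.mul (LP.mul H))
  let JM := ((S2.mul (PL.mul A2)).sub ((LAM.addi (1)).divn 2))
  let JMM := (((LAM.addi (1)).mul TH).sub ((S2.mul (PL.mul (A2.mul A))).smul (2)))
  let SQJ := ((((SS.mul (A.mul ((((H.smul (2)).sub DH).sub (MU.mul LP)).addi (1)))).add MM).divn 2).sub (SS.mul (D.mul Q1.sq)))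
  let V := (NU.mul KA)
  let VQ := (SS.mul (V.sq.mul SQJ))
  let FM := ((OW.mul JM).sub ((VQ.smul (99)).divn 5))
  let FMM := (((OW.mul (MU.mul JMM)).add ((((N3.mul NU).mul JM).smul (198)).divn 5)).add (((VQ.mul NU).smul (396)).divn 5))
  let EM := ((((MU.smul (14)).addi (1)).inv.divn 2).addi (1))
  let EL := ((MU.mul EM).add AF.ln2)
  let Q := (FMM.sub (EL.mul FM))
  let GP := (LP.mul DH)
  let V1 := (A2.mul ((GP.add (AF.cc.mul ((LP.smul (-2)).addi (1)))).add (CM.mul (GP.mul A))))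
  let SMJ := ((((SS.mul (MU.mul V1)).add ((TH.neg.addi (1)).mul ((LAM.addi (1)).mul ((CM.mul TH).addi (1))))).sub ((MU.mul AF.cc).mul ((SS.mul B2).add (TH.smul (2))))).divn 2)
  let SFMY := ((OW.mul SMJ).sub ((((N3.mul KA).mul ((SS.mul QY).sub SJ)).smul (99)).divn 5))
  let T := (SFMY.sub ((EM.mul SP).divn 2))
  let WW := ((B2.mul (F.mul Q)).sub T.sq)
  fin3 F T Q WW

/-- `delta` in `[0, 1/1024]` -/
def cD : AF := ⟨33554432, 0, 0, 33554432, true⟩
/-- `h = -log2 (1 - delta/2) / delta` -/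
def cH : AF := ⟨49584538438, 0, 0, 17179870, true⟩
/-- `eta = delta / th^2` in `[0, 0.036]` -/
def cE : AF := ⟨1236950582, 0, 0, 1236950582, true⟩

def bxT (s0 s1 t0 t1 : Nat) : Bool := boxT (var1 s0 s1) (var2 t0 t1) cD cH cE

end H76TL
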