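import Mathlib

/-!
# Affine arithmetic over the integers (fixed point, 36 binary digits)

`AF` is a first order Taylor model in two noise symbols `e1, e2 ∈ [-1,1]`:
it encloses every real `v` with `|v * 2^36 - (c + x e1 + y e2)| ≤ r`.
-/

set_option autoImplicit false

namespace H76TL

/-- affine form; `ok = false` means that an operation was not defined -/
structure AF where
  c : Int
  x : Int
  y : Int
  r : Nat
  ok : Bool

/-- `v` is enclosed by `A` at the noise `e1, e2` -/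
def Enc (e1 e2 v : ℝ) (A : AF) : Prop :=
  A.ok = true → |v * 68719476736 - ((A.c : ℝ) + (A.x : ℝ) * e1 + (A.y : ℝ) * e2)| ≤ (A.r : ℝ)

/-- the noise symbols -/
def Env (e1 e2 : ℝ) : Prop := |e1| ≤ 1 ∧ |e2| ≤ 1

namespace AF

/-- size of the linear part -/
def n (A : AF) : Nat := A.x.natAbs + A.y.natAbs

/-- total radius -/
def t (A : AF) : Nat := A.n + A.r

def add (A B : AF) : AF := ⟨A.c + B.c, A.x + B.x, A.y + B.y, A.r + B.r, A.ok && B.ok⟩
def sub (A B : AF) : AF := ⟨A.c - B.c, A.x - B.x, A.y - B.y, A.r + B.r, A.ok && B.ok⟩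
def neg (A : AF) : AF := ⟨-A.c, -A.x, -A.y, A.r, A.ok⟩

/-- integer multiple -/
def smul (k : Int) (A : AF) : AF := ⟨k * A.c, k * A.x, k * A.y, k.natAbs * A.r, A.ok⟩

/-- the rational constant `p / q` -/
def rat (p : Int) (q : Nat) : AF := ⟨p * 68719476736 / q, 0, 0, 1, true⟩

/-- add an integer -/
def addi (k : Int) (A : AF) : AF := ⟨k * 68719476736 + A.c, A.x, A.y, A.r, A.ok⟩

/-- division by a natural number -/
def divn (A : AF) (q : Nat) : AF := ⟨A.c / q, A.x / q, A.y / q, A.r / q + 4, A.ok⟩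

def mul (A B : AF) : AF :=
  ⟨A.c * B.c / 68719476736, (A.c * B.x + A.x * B.c) / 68719476736,
    (A.c * B.y + A.y * B.c) / 68719476736,
    (A.n * B.n + A.r * (B.c.natAbs + B.t) + B.r * (A.c.natAbs + A.n)) / 68719476736 + 4,
    A.ok && B.ok⟩

def sq (A : AF) : AF :=
  ⟨(2 * (A.c * A.c) + ((A.n * A.n : Nat) : Int)) / 137438953472, 2 * (A.c * A.x) / 68719476736,
    2 * (A.c * A.y) / 68719476736,
    (A.n * A.n + 2 * (A.r * (2 * A.c.natAbs + 2 * A.n + A.r))) / 137438953472 + 4, A.ok⟩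

/-- lower end -/
def lo (A : AF) : Int := A.c - (A.t : Int)

/-- half of the quadratic term of the inverse -/
def qinv (A : AF) : Nat :=
  (4722366482869645213696 * (A.t * A.t)) / (A.c.natAbs * A.c.natAbs * A.lo.natAbs) / 2 + 1

def inv (A : AF) : AF :=
  ⟨4722366482869645213696 / A.c + (A.qinv : Int),
    -(A.x * 4722366482869645213696) / (A.c * A.c),
    -(A.y * 4722366482869645213696) / (A.c * A.c),
    (A.r * 4722366482869645213696) / (A.c.natAbs * A.c.natAbs) + 4 + A.qinv,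
    A.ok && decide (0 < A.lo)⟩

end AF

lemma natAbs_cast (z : Int) : ((z.natAbs : ℕ) : ℝ) = |(z : ℝ)| := by
  rw [Nat.cast_natAbs]; push_cast; rfl

lemma lin_le {e1 e2 : ℝ} (he : Env e1 e2) (A : AF) :
    |(A.x : ℝ) * e1 + (A.y : ℝ) * e2| ≤ (A.n : ℝ) := by
  obtain ⟨h1, h2⟩ := he
  unfold AF.n
  push_cast
  rw [natAbs_cast, natAbs_cast]
  calc |(A.x : ℝ) * e1 + (A.y : ℝ) * e2| ≤ |(A.x : ℝ) * e1| + |(A.y : ℝ) * e2| := abs_add_le _ _
    _ = |(A.x : ℝ)| * |e1| + |(A.y : ℝ)| * |e2| := by rw [abs_mul, abs_mul]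
    _ ≤ |(A.x : ℝ)| * 1 + |(A.y : ℝ)| * 1 := by gcongr
    _ = _ := by ring

lemma fdiv_err (a : Int) {b : Int} (hb : 0 < b) : |((a / b : Int) : ℝ) - (a : ℝ) / b| ≤ 1 := by
  have hb' : (0 : ℝ) < b := by exact_mod_cast hb
  have h1 : b * (a / b) ≤ a := by
    have := Int.emod_nonneg a hb.ne'
    have h2 := Int.emod_add_mul_ediv a b
    linarith
  have h2 : a < b * (a / b) + b := by
    have := Int.emod_lt_of_pos a hb
    have h2 := Int.emod_add_mul_ediv a b
    linarith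
  have h1' : (b : ℝ) * ((a / b : Int) : ℝ) ≤ a := by exact_mod_cast h1
  have h2' : (a : ℝ) < b * ((a / b : Int) : ℝ) + b := by exact_mod_cast h2
  rw [abs_le]
  constructor
  · have : (a : ℝ) / b ≤ ((a / b : Int) : ℝ) + 1 := by
      rw [div_le_iff₀ hb']; nlinarith
    linarith
  · have : ((a / b : Int) : ℝ) ≤ (a : ℝ) / b := by
      rw [le_div_iff₀ hb']; nlinarith
    linarith

lemma ndiv_le (a : ℕ) {b : ℕ} (hb : 0 < b) : (a : ℝ) / b ≤ ((a / b : ℕ) : ℝ) + 1 := by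
  have hb' : (0 : ℝ) < b := by exact_mod_cast hb
  rw [div_le_iff₀ hb']
  have h := Nat.lt_succ_iff.1 (Nat.lt_succ_of_lt (Nat.lt_mul_div_succ a hb))
  have h' : (a : ℝ) ≤ b * (a / b + 1 : ℕ) := by exact_mod_cast h
  push_cast at h'
  nlinarith

/-- splitting of an enclosed value -/
lemma Enc.split {e1 e2 v : ℝ} {A : AF} (h : Enc e1 e2 v A) (ho : A.ok = true) :
    ∃ ρ : ℝ, |ρ| ≤ A.r ∧
      v * 68719476736 = (A.c : ℝ) + ((A.x : ℝ) * e1 + (A.y : ℝ) * e2) + ρ :=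
  ⟨v * 68719476736 - ((A.c : ℝ) + (A.x : ℝ) * e1 + (A.y : ℝ) * e2), h ho, by ring⟩

lemma Enc.add {e1 e2 v w : ℝ} {A B : AF} (ha : Enc e1 e2 v A) (hb : Enc e1 e2 w B) :
    Enc e1 e2 (v + w) (A.add B) := by
  intro ho
  simp only [AF.add, Bool.and_eq_true] at ho ⊢
  have h1 := ha ho.1
  have h2 := hb ho.2
  push_cast
  calc _ = |(v * 68719476736 - ((A.c : ℝ) + (A.x : ℝ) * e1 + (A.y : ℝ) * e2)) +
        (w * 68719476736 - ((B.c : ℝ) + (B.x : ℝ) * e1 + (B.y : ℝ) * e2))| := by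
        congr 1; ring
    _ ≤ _ := (abs_add_le _ _).trans (add_le_add h1 h2)

lemma Enc.sub {e1 e2 v w : ℝ} {A B : AF} (ha : Enc e1 e2 v A) (hb : Enc e1 e2 w B) :
    Enc e1 e2 (v - w) (A.sub B) := by
  intro ho
  simp only [AF.sub, Bool.and_eq_true] at ho ⊢
  have h1 := ha ho.1
  have h2 := hb ho.2
  push_cast
  calc _ = |(v * 68719476736 - ((A.c : ℝ) + (A.x : ℝ) * e1 + (A.y : ℝ) * e2)) -
        (w * 68719476736 - ((B.c : ℝ) + (B.x : ℝ) * e1 + (B.y : ℝ) * e2))| := by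
        congr 1; ring
    _ ≤ _ := (abs_sub _ _).trans (add_le_add h1 h2)

lemma Enc.neg {e1 e2 v : ℝ} {A : AF} (ha : Enc e1 e2 v A) : Enc e1 e2 (-v) A.neg := by
  intro ho
  simp only [AF.neg] at ho ⊢
  have h1 := ha ho
  push_cast
  rw [← abs_neg]
  calc _ = |(v * 68719476736 - ((A.c : ℝ) + (A.x : ℝ) * e1 + (A.y : ℝ) * e2))| := by
        congr 1; ring
    _ ≤ _ := h1

lemma Enc.smul {e1 e2 v : ℝ} {A : AF} (k : Int) (ha : Enc e1 e2 v A) :
    Enc e1 e2 ((k : ℝ) * v) (A.smul k) := by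
  intro ho
  simp only [AF.smul] at ho ⊢
  have h1 := ha ho
  push_cast
  rw [natAbs_cast]
  calc _ = |(k : ℝ) * (v * 68719476736 - ((A.c : ℝ) + (A.x : ℝ) * e1 + (A.y : ℝ) * e2))| := by
        congr 1; ring
    _ = |(k : ℝ)| * |(v * 68719476736 - ((A.c : ℝ) + (A.x : ℝ) * e1 + (A.y : ℝ) * e2))| :=
        abs_mul _ _
    _ ≤ _ := by gcongr

lemma Enc.addi {e1 e2 v : ℝ} {A : AF} (k : Int) (ha : Enc e1 e2 v A) :
    Enc e1 e2 ((k : ℝ) + v) (A.addi k) := by
  intro ho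
  simp only [AF.addi] at ho ⊢
  have h1 := ha ho
  push_cast
  calc _ = |(v * 68719476736 - ((A.c : ℝ) + (A.x : ℝ) * e1 + (A.y : ℝ) * e2))| := by
        congr 1; ring
    _ ≤ _ := h1

lemma enc_rat (e1 e2 : ℝ) (p : Int) {q : ℕ} (hq : 0 < q) :
    Enc e1 e2 ((p : ℝ) / q) (AF.rat p q) := by
  intro _
  simp only [AF.rat]
  have hq' : (0 : Int) < (q : Int) := by exact_mod_cast hq
  have h := fdiv_err (p * 68719476736) hq'
  push_cast at h ⊢
  rw [abs_sub_comm] at h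
  calc _ = |((p : ℝ) * 68719476736 / q) - ((p * 68719476736 / (q : Int) : Int) : ℝ)| := by
        congr 1; ring
    _ ≤ 1 := h

lemma Enc.divn {e1 e2 v : ℝ} {A : AF} (he : Env e1 e2) {q : ℕ} (hq : 0 < q)
    (ha : Enc e1 e2 v A) : Enc e1 e2 (v / q) (A.divn q) := by
  intro ho
  simp only [AF.divn] at ho ⊢
  have h1 := ha ho
  have hq' : (0 : Int) < (q : Int) := by exact_mod_cast hq
  have hq'' : (0 : ℝ) < (q : ℝ) := by exact_mod_cast hq
  have e_c := fdiv_err A.c hq'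
  have e_x := fdiv_err A.x hq'
  have e_y := fdiv_err A.y hq'
  have e_r := ndiv_le A.r hq
  push_cast at e_c e_x e_y e_r ⊢
  set c' : ℝ := ((A.c / (q : Int) : Int) : ℝ)
  set x' : ℝ := ((A.x / (q : Int) : Int) : ℝ)
  set y' : ℝ := ((A.y / (q : Int) : Int) : ℝ)
  obtain ⟨h2, h3⟩ := he
  have hx : |(x' - A.x / q) * e1| ≤ 1 := by
    rw [abs_mul]; nlinarith [abs_nonneg (x' - A.x / q), abs_nonneg e1]
  have hy : |(y' - A.y / q) * e2| ≤ 1 := by
    rw [abs_mul]; nlinarith [abs_nonneg (y' - A.y / q), abs_nonneg e2]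
  have hm : |(v * 68719476736 - ((A.c : ℝ) + (A.x : ℝ) * e1 + (A.y : ℝ) * e2)) / q| ≤
      (A.r : ℝ) / q := by
    rw [abs_div, abs_of_pos hq'']; gcongr
  have hid : v / q * 68719476736 - (c' + x' * e1 + y' * e2) =
      (v * 68719476736 - ((A.c : ℝ) + (A.x : ℝ) * e1 + (A.y : ℝ) * e2)) / q
      - (c' - A.c / q) - (x' - A.x / q) * e1 - (y' - A.y / q) * e2 := by
    field_simp; ring
  rw [hid]
  rw [abs_le] at *
  constructor <;> linarith [hx.1, hx.2, hy.1, hy.2, hm.1, hm.2, e_c.1, e_c.2]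

lemma Enc.mul {e1 e2 v w : ℝ} {A B : AF} (he : Env e1 e2) (ha : Enc e1 e2 v A)
    (hb : Enc e1 e2 w B) : Enc e1 e2 (v * w) (A.mul B) := by
  intro ho
  simp only [AF.mul, Bool.and_eq_true] at ho ⊢
  obtain ⟨ρ, hρ, hv⟩ := ha.split ho.1
  obtain ⟨σ, hσ, hw⟩ := hb.split ho.2
  have hl := lin_le he A
  have hm := lin_le he B
  have hS : (0 : Int) < 68719476736 := by norm_num
  have e_c := fdiv_err (A.c * B.c) hS
  have e_x := fdiv_err (A.c * B.x + A.x * B.c) hS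
  have e_y := fdiv_err (A.c * B.y + A.y * B.c) hS
  have e_r := ndiv_le (A.n * B.n + A.r * (B.c.natAbs + B.t) + B.r * (A.c.natAbs + A.n))
    (b := 68719476736) (by norm_num)
  unfold AF.t at *
  push_cast [natAbs_cast] at e_c e_x e_y e_r ⊢
  set c' : ℝ := ((A.c * B.c / 68719476736 : Int) : ℝ)
  set x' : ℝ := (((A.c * B.x + A.x * B.c) / 68719476736 : Int) : ℝ)
  set y' : ℝ := (((A.c * B.y + A.y * B.c) / 68719476736 : Int) : ℝ)
  set R' : ℝ := (((A.n * B.n + A.r * (B.c.natAbs + (B.n + B.r)) + B.r * (A.c.natAbs + A.n)) /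
    68719476736 : ℕ) : ℝ)
  obtain ⟨h1, h2⟩ := he
  have hx : |(x' - (A.c * B.x + A.x * B.c) / 68719476736) * e1| ≤ 1 := by
    rw [abs_mul]
    nlinarith [abs_nonneg (x' - (A.c * B.x + A.x * B.c) / 68719476736), abs_nonneg e1]
  have hy : |(y' - (A.c * B.y + A.y * B.c) / 68719476736) * e2| ≤ 1 := by
    rw [abs_mul]
    nlinarith [abs_nonneg (y' - (A.c * B.y + A.y * B.c) / 68719476736), abs_nonneg e2]
  set l : ℝ := (A.x : ℝ) * e1 + (A.y : ℝ) * e2 with hldef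
  set m : ℝ := (B.x : ℝ) * e1 + (B.y : ℝ) * e2 with hmdef
  have hrem : |l * m + ρ * (B.c + m + σ) + σ * (A.c + l)| ≤
      A.n * B.n + A.r * (|(B.c : ℝ)| + (B.n + B.r)) + B.r * (|(A.c : ℝ)| + A.n) := by
    have i1 : |l * m| ≤ A.n * B.n := by rw [abs_mul]; gcongr
    have i2 : |ρ * (B.c + m + σ)| ≤ A.r * (|(B.c : ℝ)| + (B.n + B.r)) := by
      rw [abs_mul]
      have : |(B.c : ℝ) + m + σ| ≤ |(B.c : ℝ)| + (B.n + B.r) := by
        refine (abs_add_le _ _).trans ?_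
        have := abs_add_le (B.c : ℝ) m
        linarith
      gcongr
    have i3 : |σ * (A.c + l)| ≤ B.r * (|(A.c : ℝ)| + A.n) := by
      rw [abs_mul]
      have : |(A.c : ℝ) + l| ≤ |(A.c : ℝ)| + A.n := by
        have := abs_add_le (A.c : ℝ) l
        linarith
      gcongr
    have := abs_add_le (l * m + ρ * (B.c + m + σ)) (σ * (A.c + l))
    have := abs_add_le (l * m) (ρ * (B.c + m + σ))
    linarith
  have hid : v * w * 68719476736 - (c' + x' * e1 + y' * e2) =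
      (l * m + ρ * (B.c + m + σ) + σ * (A.c + l)) / 68719476736
      - (c' - A.c * B.c / 68719476736)
      - (x' - (A.c * B.x + A.x * B.c) / 68719476736) * e1
      - (y' - (A.c * B.y + A.y * B.c) / 68719476736) * e2 := by
    have : v * w * 68719476736 = (A.c + l + ρ) * (B.c + m + σ) / 68719476736 := by
      rw [← hv, ← hw]; ring
    rw [this, hldef, hmdef]; ring
  rw [hid]
  have hrem2 : |(l * m + ρ * (B.c + m + σ) + σ * (A.c + l)) / 68719476736| ≤
      (A.n * B.n + A.r * (|(B.c : ℝ)| + (B.n + B.r)) + B.r * (|(A.c : ℝ)| + A.n)) /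
        68719476736 := by
    rw [abs_div, abs_of_pos (show (0 : ℝ) < 68719476736 by norm_num)]; gcongr
  rw [abs_le] at hx hy hrem2 e_c ⊢
  constructor <;> linarith [hx.1, hx.2, hy.1, hy.2, hrem2.1, hrem2.2, e_c.1, e_c.2]

lemma Enc.sq {e1 e2 v : ℝ} {A : AF} (he : Env e1 e2) (ha : Enc e1 e2 v A) :
    Enc e1 e2 (v ^ 2) A.sq := by
  intro ho
  simp only [AF.sq] at ho ⊢
  obtain ⟨ρ, hρ, hv⟩ := ha.split ho
  have hl := lin_le he A
  have hS : (0 : Int) < 68719476736 := by norm_num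
  have e_c := fdiv_err (2 * (A.c * A.c) + ((A.n * A.n : Nat) : Int)) (b := 137438953472)
    (by norm_num)
  have e_x := fdiv_err (2 * (A.c * A.x)) hS
  have e_y := fdiv_err (2 * (A.c * A.y)) hS
  have e_r := ndiv_le (A.n * A.n + 2 * (A.r * (2 * A.c.natAbs + 2 * A.n + A.r)))
    (b := 137438953472) (by norm_num)
  push_cast [natAbs_cast] at e_c e_x e_y e_r ⊢
  set c' : ℝ := (((2 * (A.c * A.c) + (A.n * A.n)) / 137438953472 : Int) : ℝ)
  set x' : ℝ := ((2 * (A.c * A.x) / 68719476736 : Int) : ℝ)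
  set y' : ℝ := ((2 * (A.c * A.y) / 68719476736 : Int) : ℝ)
  set R' : ℝ := (((A.n * A.n + 2 * (A.r * (2 * A.c.natAbs + 2 * A.n + A.r))) /
    137438953472 : ℕ) : ℝ)
  obtain ⟨h1, h2⟩ := he
  have hx : |(x' - (2 * (A.c * A.x)) / 68719476736) * e1| ≤ 1 := by
    rw [abs_mul]
    nlinarith [abs_nonneg (x' - (2 * (A.c * A.x)) / 68719476736), abs_nonneg e1]
  have hy : |(y' - (2 * (A.c * A.y)) / 68719476736) * e2| ≤ 1 := by
    rw [abs_mul]
    nlinarith [abs_nonneg (y' - (2 * (A.c * A.y)) / 68719476736), abs_nonneg e2]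
  set l : ℝ := (A.x : ℝ) * e1 + (A.y : ℝ) * e2 with hldef
  have hrem : |(2 * l ^ 2 - (A.n : ℝ) * A.n) + 2 * (ρ * (2 * A.c + 2 * l + ρ))| ≤
      A.n * A.n + 2 * (A.r * (2 * |(A.c : ℝ)| + 2 * A.n + A.r)) := by
    have i1 : |2 * l ^ 2 - (A.n : ℝ) * A.n| ≤ (A.n : ℝ) * A.n := by
      have := sq_le_sq' (abs_le.1 hl).1 (abs_le.1 hl).2
      rw [abs_le]; constructor <;> nlinarith [sq_nonneg l]
    have i2 : |ρ * (2 * A.c + 2 * l + ρ)| ≤ A.r * (2 * |(A.c : ℝ)| + 2 * A.n + A.r) := by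
      rw [abs_mul]
      have : |2 * (A.c : ℝ) + 2 * l + ρ| ≤ 2 * |(A.c : ℝ)| + 2 * A.n + A.r := by
        refine (abs_add_le _ _).trans ?_
        have := abs_add_le (2 * (A.c : ℝ)) (2 * l)
        rw [abs_mul, abs_mul, abs_two] at this
        linarith
      gcongr
    have := abs_add_le (2 * l ^ 2 - (A.n : ℝ) * A.n) (2 * (ρ * (2 * A.c + 2 * l + ρ)))
    rw [abs_mul 2, abs_two] at this
    linarith
  have hid : v ^ 2 * 68719476736 - (c' + x' * e1 + y' * e2) =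
      ((2 * l ^ 2 - A.n * A.n) + 2 * (ρ * (2 * A.c + 2 * l + ρ))) / 137438953472
      - (c' - (2 * (A.c * A.c) + A.n * A.n) / 137438953472)
      - (x' - (2 * (A.c * A.x)) / 68719476736) * e1
      - (y' - (2 * (A.c * A.y)) / 68719476736) * e2 := by
    have : v ^ 2 * 68719476736 = (A.c + l + ρ) * (A.c + l + ρ) / 68719476736 := by
      rw [← hv]; ring
    rw [this, hldef]; ring
  rw [hid]
  have hrem2 : |((2 * l ^ 2 - A.n * A.n) + 2 * (ρ * (2 * A.c + 2 * l + ρ))) / 137438953472| ≤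
      (A.n * A.n + 2 * (A.r * (2 * |(A.c : ℝ)| + 2 * A.n + A.r))) / 137438953472 := by
    rw [abs_div, abs_of_pos (show (0 : ℝ) < 137438953472 by norm_num)]; gcongr
  rw [abs_le] at hx hy hrem2 e_c ⊢
  constructor <;> linarith [hx.1, hx.2, hy.1, hy.2, hrem2.1, hrem2.2, e_c.1, e_c.2]

/-- consequences of a positive lower end -/
lemma Enc.pos {e1 e2 v : ℝ} {A : AF} (he : Env e1 e2) (ha : Enc e1 e2 v A) (ho : A.ok = true)
    (hl : 0 < A.lo) : 0 < v := by
  obtain ⟨ρ, hρ, hv⟩ := ha.split ho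
  have h1 := lin_le he A
  have h2 : (0 : ℝ) < (A.c : ℝ) - (A.n + A.r) := by
    have : (0 : ℝ) < ((A.lo : Int) : ℝ) := by exact_mod_cast hl
    unfold AF.lo AF.t at this
    push_cast at this
    linarith
  have := (abs_le.1 h1).1
  have := (abs_le.1 hρ).1
  nlinarith

lemma Enc.nonneg {e1 e2 v : ℝ} {A : AF} (he : Env e1 e2) (ha : Enc e1 e2 v A)
    (ho : A.ok = true) (hl : 0 ≤ A.lo) : 0 ≤ v := by
  obtain ⟨ρ, hρ, hv⟩ := ha.split ho
  have h1 := lin_le he A
  have h2 : (0 : ℝ) ≤ (A.c : ℝ) - (A.n + A.r) := by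
    have : (0 : ℝ) ≤ ((A.lo : Int) : ℝ) := by exact_mod_cast hl
    unfold AF.lo AF.t at this
    push_cast at this
    linarith
  have := (abs_le.1 h1).1
  have := (abs_le.1 hρ).1
  nlinarith

lemma Enc.inv {e1 e2 v : ℝ} {A : AF} (he : Env e1 e2) (ha : Enc e1 e2 v A) :
    Enc e1 e2 (v⁻¹) A.inv := by
  intro ho
  simp only [AF.inv, Bool.and_eq_true, decide_eq_true_eq] at ho ⊢
  obtain ⟨ho, hlo⟩ := ho
  have hvpos := ha.pos he ho hlo
  obtain ⟨ρ, hρ, hv⟩ := ha.split ho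
  have hl := lin_le he A
  have hlo' : (0 : ℝ) < (A.c : ℝ) - (A.n + A.r) := by
    have : (0 : ℝ) < ((A.lo : Int) : ℝ) := by exact_mod_cast hlo
    unfold AF.lo AF.t at this
    push_cast at this
    linarith
  have hcpos : (0 : ℝ) < A.c := by
    have : (0 : ℝ) ≤ (A.n : ℝ) := by positivity
    have : (0 : ℝ) ≤ (A.r : ℝ) := by positivity
    linarith
  have hcI : (0 : Int) < A.c := by exact_mod_cast hcpos
  have hccI : (0 : Int) < A.c * A.c := mul_pos hcI hcI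
  have e_c := fdiv_err 4722366482869645213696 hcI
  have e_x := fdiv_err (-(A.x * 4722366482869645213696)) hccI
  have e_y := fdiv_err (-(A.y * 4722366482869645213696)) hccI
  have hca : 0 < A.c.natAbs := Int.natAbs_pos.2 hcI.ne'
  have hla : 0 < A.lo.natAbs := Int.natAbs_pos.2 hlo.ne'
  have e_r := ndiv_le (A.r * 4722366482869645213696) (b := A.c.natAbs * A.c.natAbs)
    (by positivity)
  have e_m := ndiv_le (4722366482869645213696 * (A.t * A.t))
    (b := A.c.natAbs * A.c.natAbs * A.lo.natAbs) (by positivity)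
  have e_h := ndiv_le (4722366482869645213696 * (A.t * A.t) /
    (A.c.natAbs * A.c.natAbs * A.lo.natAbs)) (b := 2) (by norm_num)
  have hloR : |((A.lo : Int) : ℝ)| = (A.c : ℝ) - (A.n + A.r) := by
    unfold AF.lo AF.t
    push_cast
    rw [abs_of_pos hlo']
  have hq : 4722366482869645213696 * (((A.n : ℝ) + A.r) * (A.n + A.r)) /
      (A.c * A.c * (A.c - (A.n + A.r))) ≤ 2 * (A.qinv : ℝ) := by
    unfold AF.qinv
    push_cast [natAbs_cast] at e_m e_h ⊢
    rw [hloR, abs_of_pos hcpos] at e_m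
    unfold AF.t at e_m e_h ⊢
    push_cast at e_m
    set M1 : ℕ := 4722366482869645213696 * ((A.n + A.r) * (A.n + A.r)) /
      (A.c.natAbs * A.c.natAbs * A.lo.natAbs)
    have h3 : (M1 : ℝ) + 1 ≤ 2 * (((M1 / 2 : ℕ) : ℝ) + 1) := by
      have : M1 + 1 ≤ 2 * (M1 / 2 + 1) := by omega
      exact_mod_cast this
    linarith
  push_cast [natAbs_cast] at e_c e_x e_y e_r ⊢
  rw [abs_of_pos hcpos] at e_r
  set c' : ℝ := ((4722366482869645213696 / A.c : Int) : ℝ)
  set x' : ℝ := ((-(A.x * 4722366482869645213696) / (A.c * A.c) : Int) : ℝ)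
  set y' : ℝ := ((-(A.y * 4722366482869645213696) / (A.c * A.c) : Int) : ℝ)
  set R' : ℝ := ((A.r * 4722366482869645213696 / (A.c.natAbs * A.c.natAbs) : ℕ) : ℝ)
  set l : ℝ := (A.x : ℝ) * e1 + (A.y : ℝ) * e2 with hldef
  obtain ⟨h1, h2⟩ := he
  have hx : |(x' - (-(A.x * 4722366482869645213696)) / (A.c * A.c)) * e1| ≤ 1 := by
    rw [abs_mul]
    nlinarith [abs_nonneg (x' - (-(A.x * 4722366482869645213696)) / (A.c * A.c)),
      abs_nonneg e1]
  have hy : |(y' - (-(A.y * 4722366482869645213696)) / (A.c * A.c)) * e2| ≤ 1 := by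
    rw [abs_mul]
    nlinarith [abs_nonneg (y' - (-(A.y * 4722366482869645213696)) / (A.c * A.c)),
      abs_nonneg e2]
  have hVpos : (0 : ℝ) < A.c + l + ρ := by rw [← hv]; positivity
  have hVlo : (A.c : ℝ) - (A.n + A.r) ≤ A.c + l + ρ := by
    have := (abs_le.1 hl).1
    have := (abs_le.1 hρ).1
    linarith
  have hD : (l + ρ) ^ 2 ≤ ((A.n : ℝ) + A.r) * (A.n + A.r) := by
    have h3 : |l + ρ| ≤ (A.n : ℝ) + A.r := (abs_add_le _ _).trans (add_le_add hl hρ)
    have := sq_le_sq' (abs_le.1 h3).1 (abs_le.1 h3).2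
    nlinarith
  have hQ1 : 0 ≤ 4722366482869645213696 * (l + ρ) ^ 2 / (A.c * A.c * (A.c + l + ρ)) := by
    positivity
  have hQ2 : 4722366482869645213696 * (l + ρ) ^ 2 / (A.c * A.c * (A.c + l + ρ)) ≤
      2 * (A.qinv : ℝ) := by
    refine le_trans ?_ hq
    gcongr
  have hR : |4722366482869645213696 * ρ / (A.c * A.c)| ≤
      A.r * 4722366482869645213696 / (A.c * A.c) := by
    rw [abs_div, abs_mul, abs_of_pos (show (0 : ℝ) < A.c * A.c by positivity),
      abs_of_pos (show (0 : ℝ) < 4722366482869645213696 by norm_num), mul_comm]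
    gcongr
  have hid : v⁻¹ * 68719476736 - (c' + (A.qinv : ℝ) + x' * e1 + y' * e2) =
      - (4722366482869645213696 * ρ / (A.c * A.c))
      + (4722366482869645213696 * (l + ρ) ^ 2 / (A.c * A.c * (A.c + l + ρ)) - A.qinv)
      - (c' - 4722366482869645213696 / A.c)
      - (x' - (-(A.x * 4722366482869645213696)) / (A.c * A.c)) * e1
      - (y' - (-(A.y * 4722366482869645213696)) / (A.c * A.c)) * e2 := by
    have h3 : v⁻¹ * 68719476736 = 4722366482869645213696 / (A.c + l + ρ) := by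
      rw [← hv]; field_simp; norm_num
    have h4 : (4722366482869645213696 : ℝ) / (A.c + l + ρ) =
        4722366482869645213696 / A.c - 4722366482869645213696 * (l + ρ) / (A.c * A.c) +
        4722366482869645213696 * (l + ρ) ^ 2 / (A.c * A.c * (A.c + l + ρ)) := by
      field_simp
      ring
    rw [h3, h4]
    have h5 : 4722366482869645213696 * (l + ρ) / ((A.c : ℝ) * A.c) =
        4722366482869645213696 * ρ / (A.c * A.c) +
        (A.x * 4722366482869645213696) / (A.c * A.c) * e1 +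
        (A.y * 4722366482869645213696) / (A.c * A.c) * e2 := by
      rw [hldef]; ring
    rw [h5]; ring
  have hid2 : v⁻¹ * 68719476736 - ((c' + (A.qinv : ℝ)) + x' * e1 + y' * e2) =
      v⁻¹ * 68719476736 - (c' + (A.qinv : ℝ) + x' * e1 + y' * e2) := by ring
  rw [hid2, hid]
  rw [abs_le] at hx hy hR e_c ⊢
  constructor <;> linarith [hx.1, hx.2, hy.1, hy.2, hR.1, hR.2, e_c.1, e_c.2]

end H76TL
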